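import Pool.Agent.H34.Dec.Shearer

/-! From the Shearer measure to a fractional `K_q`-decomposition. -/

open Finset
open scoped Classical

namespace Pool.H34.Dec

variable {V : Type*} [Fintype V]

/-- uniform weighting on the `k`-subsets of `S`, normalised so that every pair has coverage one -/
noncomputable def U (k : ℕ) (S K : Finset V) : ℝ :=
  if K ⊆ S ∧ K.card = k then (((S.card - 2).choose (k - 2) : ℕ) : ℝ)⁻¹ else 0

/-- coverage of a pair -/
noncomputable def cov (w : Finset V → ℝ) (a b : V) : ℝ :=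
  ∑ K : Finset V, if a ∈ K ∧ b ∈ K then w K else 0

lemma U_nonneg (k : ℕ) (S K : Finset V) : 0 ≤ U k S K := by
  unfold U; split_ifs
  · positivity
  · exact le_rfl

lemma cov_U (k : ℕ) (hk : 2 ≤ k) (S : Finset V) (hS : k ≤ S.card) {a b : V} (hab : a ≠ b) :
    cov (U k S) a b = if a ∈ S ∧ b ∈ S then 1 else 0 := by
  unfold cov U
  have h1 : ∀ K : Finset V, (if a ∈ K ∧ b ∈ K then (if K ⊆ S ∧ K.card = k then
      (((S.card - 2).choose (k - 2) : ℕ) : ℝ)⁻¹ else 0) else 0) =
      if (a ∈ K ∧ b ∈ K) ∧ (K ⊆ S ∧ K.card = k) then (((S.card - 2).choose (k - 2) : ℕ) : ℝ)⁻¹ else 0 := by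
    intro K
    by_cases h : a ∈ K ∧ b ∈ K
    · simp [h]
    · simp [h]
  rw [Finset.sum_congr rfl (fun K _ => h1 K), ← Finset.sum_filter, Finset.sum_const, nsmul_eq_mul]
  by_cases hS' : a ∈ S ∧ b ∈ S
  · rw [if_pos hS']
    have hsub : ({a, b} : Finset V) ⊆ S := by
      intro x hx
      simp only [Finset.mem_insert, Finset.mem_singleton] at hx
      rcases hx with rfl | rfl
      · exact hS'.1
      · exact hS'.2
    have hc : (univ.filter (fun K : Finset V => (a ∈ K ∧ b ∈ K) ∧ (K ⊆ S ∧ K.card = k))).card =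
        (S.card - 2).choose (k - 2) := by
      have : (S \ {a, b}).card = S.card - 2 := by
        rw [Finset.card_sdiff_of_subset hsub, Finset.card_pair hab]
      rw [← this, ← Finset.card_powersetCard]
      refine Finset.card_bij' (fun K _ => K \ {a, b}) (fun K _ => K ∪ {a, b}) ?_ ?_ ?_ ?_
      · intro K hK
        simp only [Finset.mem_filter, Finset.mem_univ, true_and] at hK
        obtain ⟨⟨ha, hb⟩, hKS, hKc⟩ := hK
        have hs : ({a, b} : Finset V) ⊆ K := by
          intro x hx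
          simp only [Finset.mem_insert, Finset.mem_singleton] at hx
          rcases hx with rfl | rfl <;> assumption
        rw [Finset.mem_powersetCard]
        refine ⟨Finset.sdiff_subset_sdiff hKS (Finset.Subset.refl _), ?_⟩
        rw [Finset.card_sdiff_of_subset hs, Finset.card_pair hab, hKc]
      · intro K hK
        rw [Finset.mem_powersetCard] at hK
        obtain ⟨hKS, hKc⟩ := hK
        simp only [Finset.mem_filter, Finset.mem_univ, true_and]
        have hdis : Disjoint K {a, b} := by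
          rw [Finset.disjoint_left]
          intro x hx hx'
          exact (Finset.mem_sdiff.1 (hKS hx)).2 hx'
        refine ⟨⟨by simp, by simp⟩, Finset.union_subset (hKS.trans Finset.sdiff_subset) hsub, ?_⟩
        rw [Finset.card_union_of_disjoint hdis, Finset.card_pair hab, hKc]
        omega
      · intro K hK
        simp only [Finset.mem_filter, Finset.mem_univ, true_and] at hK
        obtain ⟨⟨ha, hb⟩, hKS, hKc⟩ := hK
        apply Finset.sdiff_union_of_subset
        intro x hx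
        simp only [Finset.mem_insert, Finset.mem_singleton] at hx
        rcases hx with rfl | rfl <;> assumption
      · intro K hK
        rw [Finset.mem_powersetCard] at hK
        obtain ⟨hKS, hKc⟩ := hK
        apply Finset.union_sdiff_cancel_right
        rw [Finset.disjoint_left]
        intro x hx hx'
        exact (Finset.mem_sdiff.1 (hKS hx)).2 hx'
    rw [hc]
    apply mul_inv_cancel₀
    have : 0 < (S.card - 2).choose (k - 2) := Nat.choose_pos (by omega)
    exact_mod_cast this.ne'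
  · rw [if_neg hS']
    have : (univ.filter (fun K : Finset V => (a ∈ K ∧ b ∈ K) ∧ (K ⊆ S ∧ K.card = k))) = ∅ := by
      rw [Finset.filter_eq_empty_iff]
      rintro K _ ⟨⟨ha, hb⟩, hKS, _⟩
      exact hS' ⟨hKS ha, hKS hb⟩
    rw [this]; simp

lemma cov_add (w₁ w₂ : Finset V → ℝ) (a b : V) :
    cov (fun K => w₁ K + w₂ K) a b = cov w₁ a b + cov w₂ a b := by
  unfold cov
  rw [← Finset.sum_add_distrib]
  apply Finset.sum_congr rfl; intro K _; split_ifs <;> simp

lemma cov_sum {ι : Type*} (s : Finset ι) (c : ι → ℝ) (w : ι → Finset V → ℝ) (a b : V) :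
    cov (fun K => ∑ i ∈ s, c i * w i K) a b = ∑ i ∈ s, c i * cov (w i) a b := by
  unfold cov
  have : ∀ K : Finset V, (if a ∈ K ∧ b ∈ K then ∑ i ∈ s, c i * w i K else 0) =
      ∑ i ∈ s, c i * (if a ∈ K ∧ b ∈ K then w i K else 0) := by
    intro K; split_ifs <;> simp
  rw [Finset.sum_congr rfl (fun K _ => this K), Finset.sum_comm]
  apply Finset.sum_congr rfl; intro i _
  rw [Finset.mul_sum]

/-- correction weighting inside a `(q+2)`-set -/
noncomputable def wQ (q : ℕ) (ψ : V → V → ℝ) (Q K : Finset V) : ℝ :=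
  U q Q K + ∑ p ∈ Q ×ˢ Q, (ψ p.1 p.2 / 2) *
    (U q Q K - U q (Q.erase p.1) K - U q (Q.erase p.2) K + U q ((Q.erase p.1).erase p.2) K)

lemma cov_wQ (q : ℕ) (hq : 2 ≤ q) (ψ : V → V → ℝ) (hψd : ∀ u, ψ u u = 0) (hψs : ∀ u v, ψ u v = ψ v u)
    (Q : Finset V) (hQ : Q.card = q + 2) {a b : V} (hab : a ≠ b) :
    cov (wQ q ψ Q) a b = if a ∈ Q ∧ b ∈ Q then 1 + ψ a b else 0 := by
  have e1 : cov (wQ q ψ Q) a b = cov (U q Q) a b + ∑ p ∈ Q ×ˢ Q, (ψ p.1 p.2 / 2) *
      (cov (fun K => U q Q K - U q (Q.erase p.1) K - U q (Q.erase p.2) K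
        + U q ((Q.erase p.1).erase p.2) K) a b) := by
    rw [← cov_sum, ← cov_add]; rfl
  have e2 : ∀ p ∈ Q ×ˢ Q, (ψ p.1 p.2 / 2) *
      (cov (fun K => U q Q K - U q (Q.erase p.1) K - U q (Q.erase p.2) K
        + U q ((Q.erase p.1).erase p.2) K) a b) =
      (ψ p.1 p.2 / 2) * (if a ∈ Q ∧ b ∈ Q ∧ ((p.1 = a ∧ p.2 = b) ∨ (p.1 = b ∧ p.2 = a)) then 1 else 0) := by
    rintro ⟨u, v⟩ hp
    rw [Finset.mem_product] at hp
    obtain ⟨hu, hv⟩ := hp
    simp only at hu hv ⊢
    by_cases huv : u = v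
    · subst huv; simp [hψd]
    congr 1
    have c1 : (Q.erase u).card = q + 1 := by rw [Finset.card_erase_of_mem hu, hQ]; rfl
    have c2 : (Q.erase v).card = q + 1 := by rw [Finset.card_erase_of_mem hv, hQ]; rfl
    have c3 : ((Q.erase u).erase v).card = q := by
      rw [Finset.card_erase_of_mem (Finset.mem_erase.2 ⟨fun e => huv e.symm, hv⟩), c1]; rfl
    have f1 : cov (fun K => U q Q K - U q (Q.erase u) K - U q (Q.erase v) K
        + U q ((Q.erase u).erase v) K) a b = cov (U q Q) a b - cov (U q (Q.erase u)) a b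
        - cov (U q (Q.erase v)) a b + cov (U q ((Q.erase u).erase v)) a b := by
      unfold cov
      rw [← Finset.sum_sub_distrib, ← Finset.sum_sub_distrib, ← Finset.sum_add_distrib]
      apply Finset.sum_congr rfl; intro K _; split_ifs <;> simp
    rw [f1, cov_U q hq Q (by omega) hab, cov_U q hq _ (by omega) hab, cov_U q hq _ (by omega) hab,
      cov_U q hq _ (by omega) hab]
    simp only [Finset.mem_erase]
    by_cases haQ : a ∈ Q <;> by_cases hbQ : b ∈ Q <;> simp only [haQ, hbQ, and_true, and_false, true_and, false_and, if_false] <;> try norm_num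
    by_cases h1 : a = u <;> by_cases h2 : b = u <;> by_cases h3 : a = v <;> by_cases h4 : b = v <;>
      simp_all [eq_comm]
  rw [e1, Finset.sum_congr rfl e2, cov_U q hq Q (by omega) hab]
  by_cases hQ' : a ∈ Q ∧ b ∈ Q
  · rw [if_pos hQ', if_pos hQ']
    have : ∑ p ∈ Q ×ˢ Q, (ψ p.1 p.2 / 2) *
        (if a ∈ Q ∧ b ∈ Q ∧ ((p.1 = a ∧ p.2 = b) ∨ (p.1 = b ∧ p.2 = a)) then 1 else 0) =
        ∑ p ∈ ({(a, b), (b, a)} : Finset (V × V)), ψ p.1 p.2 / 2 := by
      have hsub : ({(a, b), (b, a)} : Finset (V × V)) ⊆ Q ×ˢ Q := by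
        intro p hp
        simp only [Finset.mem_insert, Finset.mem_singleton] at hp
        rcases hp with rfl | rfl
        · exact Finset.mem_product.2 ⟨hQ'.1, hQ'.2⟩
        · exact Finset.mem_product.2 ⟨hQ'.2, hQ'.1⟩
      rw [← Finset.sum_subset hsub]
      · apply Finset.sum_congr rfl
        intro p hp
        simp only [Finset.mem_insert, Finset.mem_singleton] at hp
        rcases hp with rfl | rfl <;> simp [hQ'.1, hQ'.2]
      · rintro ⟨u, v⟩ _ hp
        simp only [Finset.mem_insert, Finset.mem_singleton, Prod.mk.injEq, not_or] at hp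
        rw [if_neg]
        · simp
        · rintro ⟨_, _, h | h⟩
          · exact hp.1 h
          · exact hp.2 h
    rw [this, Finset.sum_pair (by simp [hab])]
    simp only
    rw [hψs b a]; ring
  · rw [if_neg hQ', if_neg hQ']
    rw [zero_add]
    apply Finset.sum_eq_zero
    intro p _
    rw [if_neg (fun h => hQ' ⟨h.1, h.2.1⟩)]
    simp

lemma wQ_zero (q : ℕ) (ψ : V → V → ℝ) (Q K : Finset V) (h : ¬ (K ⊆ Q ∧ K.card = q)) :
    wQ q ψ Q K = 0 := by
  have hU : ∀ R : Finset V, R ⊆ Q → U q R K = 0 := by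
    intro R hR
    unfold U
    rw [if_neg (fun h' => h ⟨h'.1.trans hR, h'.2⟩)]
  unfold wQ
  rw [hU Q (Finset.Subset.refl _), zero_add]
  apply Finset.sum_eq_zero
  rintro ⟨u, v⟩ _
  simp only
  rw [hU _ (Finset.erase_subset _ _), hU _ (Finset.erase_subset _ _),
    hU _ ((Finset.erase_subset _ _).trans (Finset.erase_subset _ _))]
  simp

lemma wQ_nonneg (q : ℕ) (hq : 3 ≤ q) (ψ : V → V → ℝ) (hψd : ∀ u, ψ u u = 0)
    (hψ0 : ∀ u v, 0 ≤ ψ u v) (t : ℝ) (ht : ∀ u v, ψ u v ≤ t) (htq : (q : ℝ) * (q - 2) * t ≤ 1)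
    (Q : Finset V) (hQ : Q.card = q + 2) (K : Finset V) : 0 ≤ wQ q ψ Q K := by
  by_cases hK : K ⊆ Q ∧ K.card = q
  swap
  · rw [wQ_zero q ψ Q K hK]
  obtain ⟨hKQ, hKc⟩ := hK
  have hq' : (3 : ℝ) ≤ q := by exact_mod_cast hq
  -- values of U
  have u0 : U q Q K = 2 / ((q : ℝ) * (q - 1)) := by
    unfold U
    rw [if_pos ⟨hKQ, hKc⟩, hQ]
    have h1 : (q + 2 - 2).choose (q - 2) = q.choose 2 := by
      have : q + 2 - 2 = q := by omega
      rw [this]
      exact Nat.choose_symm (by omega)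
    rw [h1, Nat.cast_choose_two]
    rw [inv_div]
  have u1 : ∀ u ∈ Q, U q (Q.erase u) K = if u ∈ K then 0 else 1 / ((q : ℝ) - 1) := by
    intro u hu
    unfold U
    by_cases hk : u ∈ K
    · rw [if_neg, if_pos hk]
      rintro ⟨h, _⟩
      exact Finset.notMem_erase u Q (h hk)
    · rw [if_pos ⟨fun x hx => Finset.mem_erase.2 ⟨fun e => hk (e ▸ hx), hKQ hx⟩, hKc⟩, if_neg hk,
        Finset.card_erase_of_mem hu, hQ]
      have h1 : (q + 2 - 1 - 2).choose (q - 2) = q - 1 := by
        have : q + 2 - 1 - 2 = q - 2 + 1 := by omega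
        rw [this, Nat.choose_succ_self_right]; omega
      rw [h1, Nat.cast_sub (by omega), one_div]; simp
  have u2 : ∀ u ∈ Q, ∀ v ∈ Q, u ≠ v → U q ((Q.erase u).erase v) K = if u ∈ K ∨ v ∈ K then 0 else 1 := by
    intro u hu v hv huv
    unfold U
    by_cases hk : u ∈ K ∨ v ∈ K
    · rw [if_neg, if_pos hk]
      rintro ⟨h, _⟩
      rcases hk with hk | hk
      · have := Finset.mem_erase.1 (h hk)
        exact Finset.notMem_erase u Q this.2
      · exact Finset.notMem_erase v _ (h hk)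
    · rw [if_neg hk]
      push Not at hk
      rw [if_pos ⟨fun x hx => Finset.mem_erase.2 ⟨fun e => hk.2 (e ▸ hx),
        Finset.mem_erase.2 ⟨fun e => hk.1 (e ▸ hx), hKQ hx⟩⟩, hKc⟩,
        Finset.card_erase_of_mem (Finset.mem_erase.2 ⟨fun e => huv e.symm, hv⟩),
        Finset.card_erase_of_mem hu, hQ]
      have h1 : (q + 2 - 1 - 1 - 2).choose (q - 2) = 1 := by
        have : q + 2 - 1 - 1 - 2 = q - 2 := by omega
        rw [this, Nat.choose_self]
      rw [h1]; simp
  have hq1 : (0 : ℝ) < (q : ℝ) - 1 := by linarith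
  have hq0 : (0 : ℝ) < (q : ℝ) := by linarith
  have hq2 : (0 : ℝ) < (q : ℝ) - 2 := by linarith
  -- pointwise bound
  set δ : ℝ := ((q : ℝ) - 2) / (q * (q - 1)) with hδ
  have hδ0 : 0 ≤ δ := by positivity
  have pw : ∀ p ∈ Q ×ˢ Q, -(t * δ / 2 * ((if p.1 ∈ K ∧ p.2 ∈ Q \ K then 1 else 0) + (if p.1 ∈ Q \ K ∧ p.2 ∈ K then 1 else 0)))
      ≤ (ψ p.1 p.2 / 2) *
    (U q Q K - U q (Q.erase p.1) K - U q (Q.erase p.2) K + U q ((Q.erase p.1).erase p.2) K) := by
    rintro ⟨u, v⟩ hp
    rw [Finset.mem_product] at hp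
    obtain ⟨hu, hv⟩ := hp
    simp only at hu hv ⊢
    have ht0 : 0 ≤ t := le_trans (hψ0 u v) (ht u v)
    by_cases huv : u = v
    · subst huv
      rw [hψd u]
      have : 0 ≤ t * δ / 2 * ((if u ∈ K ∧ u ∈ Q \ K then (1:ℝ) else 0) + (if u ∈ Q \ K ∧ u ∈ K then 1 else 0)) := by
        apply mul_nonneg (by positivity)
        apply add_nonneg <;> split_ifs <;> norm_num
      linarith
    · rw [u0, u1 u hu, u1 v hv, u2 u hu v hv huv]
      simp only [Finset.mem_sdiff, hu, hv, true_and]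
      have h0 := hψ0 u v
      have h1 := ht u v
      by_cases hk1 : u ∈ K <;> by_cases hk2 : v ∈ K <;> simp only [hk1, hk2, if_true, if_false, true_and, false_and, not_true, not_false_eq_true, or_true, true_or, or_self, and_false, and_true]
      · have : 0 ≤ 2 / ((q:ℝ) * (q - 1)) := by positivity
        nlinarith [mul_nonneg h0 this]
      · have e : 2 / ((q:ℝ) * (q - 1)) - 0 - 1 / ((q:ℝ) - 1) + 0 = -δ := by
          rw [hδ]; field_simp; ring
        rw [e]
        nlinarith [mul_le_mul_of_nonneg_right h1 hδ0]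
      · have e : 2 / ((q:ℝ) * (q - 1)) - 1 / ((q:ℝ) - 1) - 0 + 0 = -δ := by
          rw [hδ]; field_simp; ring
        rw [e]
        nlinarith [mul_le_mul_of_nonneg_right h1 hδ0]
      · have e : 2 / ((q:ℝ) * (q - 1)) - 1 / ((q:ℝ) - 1) - 1 / ((q:ℝ) - 1) + 1 = (q - 2) / q := by
          field_simp; ring
        rw [e]
        have : 0 ≤ ((q:ℝ) - 2) / q := by positivity
        nlinarith [mul_nonneg h0 this]
  have hsum := Finset.sum_le_sum pw
  have hcard : (Q \ K).card = 2 := by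
    rw [Finset.card_sdiff_of_subset hKQ, hKc, hQ]; omega
  have hcount : ∑ p ∈ Q ×ˢ Q, -(t * δ / 2 * ((if p.1 ∈ K ∧ p.2 ∈ Q \ K then (1:ℝ) else 0) + (if p.1 ∈ Q \ K ∧ p.2 ∈ K then 1 else 0)))
      = -(t * δ / 2 * (4 * q)) := by
    rw [Finset.sum_neg_distrib, ← Finset.mul_sum, Finset.sum_add_distrib]
    have s1 : ∑ p ∈ Q ×ˢ Q, (if p.1 ∈ K ∧ p.2 ∈ Q \ K then (1:ℝ) else 0) = 2 * q := by
      rw [← Finset.sum_filter, Finset.sum_const, nsmul_eq_mul, mul_one]
      have : (Q ×ˢ Q).filter (fun p => p.1 ∈ K ∧ p.2 ∈ Q \ K) = K ×ˢ (Q \ K) := by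
        ext p; simp only [Finset.mem_filter, Finset.mem_product, Finset.mem_sdiff]
        constructor
        · rintro ⟨_, h⟩; exact h
        · rintro ⟨h1, h2⟩; exact ⟨⟨hKQ h1, h2.1⟩, h1, h2⟩
      rw [this, Finset.card_product, hKc, hcard]; push_cast; ring
    have s2 : ∑ p ∈ Q ×ˢ Q, (if p.1 ∈ Q \ K ∧ p.2 ∈ K then (1:ℝ) else 0) = 2 * q := by
      rw [← Finset.sum_filter, Finset.sum_const, nsmul_eq_mul, mul_one]
      have : (Q ×ˢ Q).filter (fun p => p.1 ∈ Q \ K ∧ p.2 ∈ K) = (Q \ K) ×ˢ K := by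
        ext p; simp only [Finset.mem_filter, Finset.mem_product, Finset.mem_sdiff]
        constructor
        · rintro ⟨_, h⟩; exact h
        · rintro ⟨h1, h2⟩; exact ⟨⟨h1.1, hKQ h2⟩, h1, h2⟩
      rw [this, Finset.card_product, hKc, hcard]; push_cast; ring
    rw [s1, s2]; ring
  rw [hcount] at hsum
  unfold wQ
  rw [u0] at hsum ⊢
  have hfin : 0 ≤ 2 / ((q:ℝ) * (q - 1)) - (t * δ / 2 * (4 * q)) := by
    have : 2 / ((q:ℝ) * (q - 1)) - (t * δ / 2 * (4 * q)) = 2 / ((q:ℝ) * (q - 1)) * (1 - q * (q - 2) * t) := by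
      rw [hδ]; field_simp; ring
    rw [this]
    apply mul_nonneg (by positivity)
    linarith
  linarith

end Pool.H34.Dec
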