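import Pool.Agent.H34.Dec.Weights

/-! From weightings of cliques to weightings of copies of an arbitrary graph. -/

open Finset
open scoped Classical

namespace Pool.H34.Dec

/-- A fractional `F`-decomposition of `G`: weights in `[0,1]` on the subgraphs of `G` isomorphic to `F`
such that the weights of the copies containing any fixed edge of `G` add up to one. -/
def IsFracDecomp {W V : Type} [Fintype W] [Fintype V] (F : SimpleGraph W) (G : SimpleGraph V)
    (w : G.Subgraph → ℝ) : Prop :=
  (∀ H, 0 ≤ w H ∧ w H ≤ 1) ∧ (∀ H, w H ≠ 0 → Nonempty (F ≃g H.coe)) ∧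
    ∀ e ∈ G.edgeSet, ∑ H ∈ univ.filter (fun H : G.Subgraph => e ∈ H.edgeSet), w H = 1

variable {W V : Type} [Fintype W] [Fintype V]

/-- number of permutations sending the pair `(i,j)` to an edge of `F` -/
noncomputable def cnt (F : SimpleGraph W) (i j : W) : ℕ :=
  (univ.filter (fun σ : Equiv.Perm W => F.Adj (σ i) (σ j))).card

lemma cnt_symm (F : SimpleGraph W) (i j : W) : cnt F i j = cnt F j i := by
  unfold cnt; simp only [F.adj_comm]

lemma cnt_perm (F : SimpleGraph W) (i j : W) (τ : Equiv.Perm W) : cnt F (τ i) (τ j) = cnt F i j := by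
  unfold cnt
  refine Finset.card_bij' (fun σ _ => σ * τ) (fun σ _ => σ * τ⁻¹) ?_ ?_ ?_ ?_
  · intro σ hσ
    simpa using hσ
  · intro σ hσ
    simpa using hσ
  · intro σ _; simp
  · intro σ _; simp

lemma cnt_swap (F : SimpleGraph W) {i i' j : W} (h : i ≠ j) (h' : i' ≠ j) : cnt F i j = cnt F i' j := by
  rw [← cnt_perm F i' j (Equiv.swap i i')]
  rw [Equiv.swap_apply_right, Equiv.swap_apply_of_ne_of_ne h.symm h'.symm]

lemma cnt_const (F : SimpleGraph W) {i j i' j' : W} (h : i ≠ j) (h' : i' ≠ j') : cnt F i j = cnt F i' j' := by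
  by_cases h1 : i' = j
  · subst h1
    rw [cnt_swap F h h'.symm, cnt_symm]
  · rw [cnt_swap F h h1, cnt_symm, cnt_swap F (i' := j') (Ne.symm h1) h'.symm, cnt_symm]

/-- the subgraph of `G` given by an injection (meaningful when it is a copy) -/
def sub (F : SimpleGraph W) (G : SimpleGraph V) (f : W → V) : G.Subgraph where
  verts := Set.range f
  Adj u v := G.Adj u v ∧ ∃ i j, F.Adj i j ∧ f i = u ∧ f j = v
  adj_sub h := h.1
  edge_vert := by
    rintro u v ⟨_, i, j, _, rfl, _⟩
    exact ⟨i, rfl⟩
  symm := by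
    refine ⟨?_⟩
    rintro u v ⟨h, i, j, hij, hi, hj⟩
    exact ⟨h.symm, j, i, hij.symm, hj, hi⟩

lemma sub_iso (F : SimpleGraph W) (G : SimpleGraph V) (f : W → V) (hf : Function.Injective f)
    (hG : ∀ i j, F.Adj i j → G.Adj (f i) (f j)) : Nonempty (F ≃g (sub F G f).coe) := by
  refine ⟨⟨Equiv.ofInjective f hf, ?_⟩⟩
  intro i j
  simp only [SimpleGraph.Subgraph.coe_adj, sub, Equiv.ofInjective_apply]
  constructor
  · rintro ⟨_, i', j', h, hi, hj⟩
    rwa [hf hi, hf hj] at h
  · intro h
    exact ⟨hG i j h, i, j, h, rfl, rfl⟩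

theorem fracDecomp_of_weights (F : SimpleGraph W) (hF : F ≠ ⊥) (G : SimpleGraph V) (q : ℕ)
    (hq : Fintype.card W = q) (w : Finset V → ℝ) (hw0 : ∀ K, 0 ≤ w K)
    (hwc : ∀ K, w K ≠ 0 → G.IsClique (K : Set V) ∧ K.card = q)
    (hcov : ∀ a b, G.Adj a b → cov w a b = 1) :
    ∃ w' : G.Subgraph → ℝ, IsFracDecomp F G w' := by
  -- an edge of F
  obtain ⟨p, r, hpr⟩ : ∃ p r, F.Adj p r := by
    by_contra hcon
    push Not at hcon
    apply hF
    ext a b
    simp [hcon a b]
  have hpr' : p ≠ r := hpr.ne
  set N : ℕ := cnt F p r with hN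
  have hNpos : 0 < N := by
    rw [hN, cnt, Finset.card_pos]
    exact ⟨1, by simp [hpr]⟩
  have hNpos' : (0 : ℝ) < N := by exact_mod_cast hNpos
  -- equivalences
  have hequiv : ∀ K : Finset V, K.card = q → Nonempty (W ≃ K) := by
    intro K hK
    exact Fintype.card_eq.1 (by rw [Fintype.card_coe, hK, hq])
  let 𝒦 : Type := {K : Finset V // K.card = q}
  let g : (K : 𝒦) → (W ≃ (K.1 : Finset V)) := fun K => (hequiv K.1 K.2).some
  let f : 𝒦 → Equiv.Perm W → W → V := fun K σ i => ((g K (σ i) : (K.1 : Finset V)) : V)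
  have finj : ∀ K σ, Function.Injective (f K σ) := by
    intro K σ i j hij
    exact σ.injective ((g K).injective (Subtype.ext hij))
  have fmem : ∀ K σ i, f K σ i ∈ K.1 := fun K σ i => (g K (σ i)).2
  let w' : G.Subgraph → ℝ := fun H => ∑ K : 𝒦, ∑ σ : Equiv.Perm W,
    if sub F G (f K σ) = H then w K.1 / N else 0
  have w'0 : ∀ H, 0 ≤ w' H := by
    intro H
    apply Finset.sum_nonneg; intro K _
    apply Finset.sum_nonneg; intro σ _
    split_ifs
    · exact div_nonneg (hw0 _) hNpos'.le
    · exact le_rfl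
  have w'iso : ∀ H, w' H ≠ 0 → Nonempty (F ≃g H.coe) := by
    intro H hH
    obtain ⟨K, _, hK⟩ := Finset.exists_ne_zero_of_sum_ne_zero hH
    obtain ⟨σ, _, hσ⟩ := Finset.exists_ne_zero_of_sum_ne_zero hK
    by_cases hs : sub F G (f K σ) = H
    · rw [if_pos hs] at hσ
      have hwK : w K.1 ≠ 0 := by
        intro h0
        rw [h0, zero_div] at hσ
        exact hσ rfl
      have hcl := (hwc K.1 hwK).1
      rw [← hs]
      apply sub_iso F G (f K σ) (finj K σ)
      intro i j hij
      exact hcl (by exact_mod_cast fmem K σ i) (by exact_mod_cast fmem K σ j)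
        (fun e => hij.ne (finj K σ e))
    · rw [if_neg hs] at hσ
      exact absurd rfl hσ
  have key : ∀ (K : 𝒦) (a b : V), G.Adj a b →
      ∑ σ : Equiv.Perm W, (if s(a, b) ∈ (sub F G (f K σ)).edgeSet then w K.1 / N else 0) =
        if a ∈ K.1 ∧ b ∈ K.1 then w K.1 else 0 := by
    intro K a b hab
    have hmem : ∀ σ, s(a, b) ∈ (sub F G (f K σ)).edgeSet ↔ ∃ i j, F.Adj i j ∧ f K σ i = a ∧ f K σ j = b := by
      intro σ
      rw [SimpleGraph.Subgraph.mem_edgeSet]
      constructor
      · rintro ⟨_, h⟩; exact h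
      · intro h; exact ⟨hab, h⟩
    rw [← Finset.sum_filter, Finset.sum_const, nsmul_eq_mul]
    by_cases hK : a ∈ K.1 ∧ b ∈ K.1
    · rw [if_pos hK]
      set i0 : W := (g K).symm ⟨a, hK.1⟩ with hi0
      set j0 : W := (g K).symm ⟨b, hK.2⟩ with hj0
      have hij : i0 ≠ j0 := by
        intro e
        have := (g K).symm.injective e
        exact hab.ne (congrArg Subtype.val this)
      have hc : (univ.filter (fun σ : Equiv.Perm W => s(a, b) ∈ (sub F G (f K σ)).edgeSet)).card = N := by
        rw [hN, cnt_const F hpr' hij, cnt]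
        refine Finset.card_bij' (fun σ _ => σ⁻¹) (fun σ _ => σ⁻¹) ?_ ?_ ?_ ?_
        · intro σ hσ
          rw [Finset.mem_filter, hmem] at hσ
          obtain ⟨_, i, j, h, hi, hj⟩ := hσ
          rw [Finset.mem_filter]
          refine ⟨Finset.mem_univ _, ?_⟩
          have e1 : i0 = σ i := by
            rw [hi0, Equiv.symm_apply_eq]
            exact Subtype.ext hi.symm
          have e2 : j0 = σ j := by
            rw [hj0, Equiv.symm_apply_eq]
            exact Subtype.ext hj.symm
          rw [e1, e2]; simpa using h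
        · intro σ hσ
          rw [Finset.mem_filter] at hσ
          rw [Finset.mem_filter, hmem]
          refine ⟨Finset.mem_univ _, σ i0, σ j0, hσ.2, ?_, ?_⟩
          · change ((g K (σ⁻¹ (σ i0)) : (K.1 : Finset V)) : V) = a
            simp [hi0]
          · change ((g K (σ⁻¹ (σ j0)) : (K.1 : Finset V)) : V) = b
            simp [hj0]
        · intro σ _; simp
        · intro σ _; simp
      rw [hc]; field_simp
    · rw [if_neg hK]
      have : (univ.filter (fun σ : Equiv.Perm W => s(a, b) ∈ (sub F G (f K σ)).edgeSet)) = ∅ := by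
        rw [Finset.filter_eq_empty_iff]
        intro σ _ hσ
        rw [hmem] at hσ
        obtain ⟨i, j, h, hi, hj⟩ := hσ
        exact hK ⟨hi ▸ fmem K σ i, hj ▸ fmem K σ j⟩
      rw [this]; simp
  have w'cov : ∀ e ∈ G.edgeSet, ∑ H ∈ univ.filter (fun H : G.Subgraph => e ∈ H.edgeSet), w' H = 1 := by
    intro e
    induction e using Sym2.ind with
    | _ a b =>
      intro hab
      rw [SimpleGraph.mem_edgeSet] at hab
      rw [Finset.sum_filter]
      have e1 : ∀ H : G.Subgraph, (if s(a, b) ∈ H.edgeSet then w' H else 0) =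
          ∑ K : 𝒦, ∑ σ : Equiv.Perm W, if sub F G (f K σ) = H then
            (if s(a, b) ∈ (sub F G (f K σ)).edgeSet then w K.1 / N else 0) else 0 := by
        intro H
        by_cases h : s(a, b) ∈ H.edgeSet
        · rw [if_pos h]
          apply Finset.sum_congr rfl; intro K _
          apply Finset.sum_congr rfl; intro σ _
          by_cases hs : sub F G (f K σ) = H
          · rw [if_pos hs, if_pos hs, if_pos (by rw [hs]; exact h)]
          · rw [if_neg hs, if_neg hs]
        · rw [if_neg h]
          symm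
          apply Finset.sum_eq_zero; intro K _
          apply Finset.sum_eq_zero; intro σ _
          by_cases hs : sub F G (f K σ) = H
          · rw [if_pos hs, if_neg (by rw [hs]; exact h)]
          · rw [if_neg hs]
      rw [Finset.sum_congr rfl (fun H _ => e1 H), Finset.sum_comm]
      have e2 : ∀ K : 𝒦, ∑ H : G.Subgraph, ∑ σ : Equiv.Perm W, (if sub F G (f K σ) = H then
            (if s(a, b) ∈ (sub F G (f K σ)).edgeSet then w K.1 / N else 0) else 0) =
          if a ∈ K.1 ∧ b ∈ K.1 then w K.1 else 0 := by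
        intro K
        rw [Finset.sum_comm, ← key K a b hab]
        apply Finset.sum_congr rfl; intro σ _
        rw [Finset.sum_ite_eq]
        simp
      rw [Finset.sum_congr rfl (fun K _ => e2 K), ← hcov a b hab, cov]
      have e3 : ∀ K : Finset V, (if a ∈ K ∧ b ∈ K then w K else 0) =
          if K.card = q then (if a ∈ K ∧ b ∈ K then w K else 0) else 0 := by
        intro K
        by_cases hK : K.card = q
        · rw [if_pos hK]
        · rw [if_neg hK]
          have : w K = 0 := by
            by_contra hc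
            exact hK (hwc K hc).2
          rw [this]; simp
      have e4 : ∑ K : Finset V, (if K.card = q then (if a ∈ K ∧ b ∈ K then w K else 0) else 0) =
          ∑ K ∈ univ.filter (fun K : Finset V => K.card = q), (if a ∈ K ∧ b ∈ K then w K else 0) :=
        (Finset.sum_filter _ _).symm
      rw [Finset.sum_congr rfl (fun K _ => e3 K), e4]
      exact (Finset.sum_subtype (p := fun K : Finset V => K.card = q)
        (univ.filter (fun K : Finset V => K.card = q)) (by simp)
        (fun K => if a ∈ K ∧ b ∈ K then w K else 0)).symm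
  refine ⟨w', fun H => ⟨w'0 H, ?_⟩, w'iso, w'cov⟩
  by_cases hH : w' H = 0
  · rw [hH]; exact zero_le_one
  · obtain ⟨φ⟩ := w'iso H hH
    have hadj : H.coe.Adj (φ p) (φ r) := φ.map_rel_iff'.2 hpr
    have hadj' : H.Adj (φ p) (φ r) := hadj
    have he : s(((φ p : H.verts) : V), ((φ r : H.verts) : V)) ∈ H.edgeSet := by
      rw [SimpleGraph.Subgraph.mem_edgeSet]; exact hadj'
    rw [← w'cov _ (H.edgeSet_subset he)]
    exact Finset.single_le_sum (f := w') (fun H' _ => w'0 H') (Finset.mem_filter.2 ⟨Finset.mem_univ _, he⟩)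

end Pool.H34.Dec
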