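import Mathlib

/-! Numerical inequalities. -/

namespace Pool.H34.Dec

/-- the main quantity -/
noncomputable def Q (q : ℕ) (c y : ℝ) : ℝ :=
  ((q : ℝ) - 1) ^ 2 / y ^ (q - 3) * Real.exp (-((1 - y) * (c * q - 2) / Real.exp 1))

lemma inv_e_ge : (0.36787944 : ℝ) ≤ 1 / Real.exp 1 := by
  rw [le_div_iff₀ (Real.exp_pos 1)]
  have := Real.exp_one_lt_d9
  nlinarith

lemma inv_e_le : 1 / Real.exp 1 ≤ (0.3678795 : ℝ) := by
  rw [div_le_iff₀ (Real.exp_pos 1)]
  have := Real.exp_one_gt_d9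
  nlinarith

lemma exp1 : (2.5 : ℝ) ≤ Real.exp 0.9163 := by
  refine le_trans ?_ (Real.sum_le_exp_of_nonneg (by norm_num) 12)
  norm_num [Finset.sum_range_succ, Nat.factorial]

lemma exp2 : (9.56 : ℝ) ≤ Real.exp 2.2576 := by
  refine le_trans ?_ (Real.sum_le_exp_of_nonneg (by norm_num) 18)
  norm_num [Finset.sum_range_succ, Nat.factorial]

lemma le_exp_sub_one (t : ℝ) : t ≤ Real.exp (t - 1) := by
  have := Real.add_one_le_exp (t - 1); linarith

lemma Q_le_one {q : ℕ} (hq : 4 ≤ q) : Q q 5.1 0.4 ≤ 1 := by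
  have hq' : (4 : ℝ) ≤ q := by exact_mod_cast hq
  unfold Q
  have h1 : ((q : ℝ) - 1) ≤ Real.exp (2.2576 + (((q : ℝ) - 1) / 9.56 - 1)) := by
    rw [Real.exp_add]
    have h := le_exp_sub_one (((q : ℝ) - 1) / 9.56)
    calc ((q : ℝ) - 1) = 9.56 * (((q : ℝ) - 1) / 9.56) := by field_simp
      _ ≤ Real.exp 2.2576 * Real.exp (((q : ℝ) - 1) / 9.56 - 1) := by
        apply mul_le_mul exp2 h (by apply div_nonneg <;> linarith) (Real.exp_pos _).le
  have h2 : ((q : ℝ) - 1) ^ 2 ≤ Real.exp (2 * (2.2576 + (((q : ℝ) - 1) / 9.56 - 1))) := by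
    calc ((q : ℝ) - 1) ^ 2 ≤ (Real.exp (2.2576 + (((q : ℝ) - 1) / 9.56 - 1))) ^ 2 :=
          pow_le_pow_left₀ (by linarith) h1 2
      _ = _ := by rw [← Real.exp_nat_mul]; norm_num
  have h3 : (1 : ℝ) / (0.4 : ℝ) ^ (q - 3) ≤ Real.exp (0.9163 * ((q : ℝ) - 3)) := by
    have : (1 : ℝ) / (0.4 : ℝ) ^ (q - 3) = 2.5 ^ (q - 3) := by
      rw [one_div, ← inv_pow]; norm_num
    rw [this]
    calc (2.5 : ℝ) ^ (q - 3) ≤ (Real.exp 0.9163) ^ (q - 3) := pow_le_pow_left₀ (by norm_num) exp1 _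
      _ = _ := by
        rw [← Real.exp_nat_mul, Nat.cast_sub (by omega)]; push_cast; ring_nf
  have h4 : Real.exp (-((1 - 0.4) * (5.1 * (q : ℝ) - 2) / Real.exp 1)) ≤
      Real.exp (-(0.6 * (5.1 * (q : ℝ) - 2) * 0.36787944)) := by
    apply Real.exp_le_exp.2
    apply neg_le_neg
    have h5 : 0 ≤ 0.6 * (5.1 * (q : ℝ) - 2) := by nlinarith
    have h6 := mul_le_mul_of_nonneg_left inv_e_ge h5
    have e : (1 - 0.4) * (5.1 * (q : ℝ) - 2) / Real.exp 1 = 0.6 * (5.1 * (q : ℝ) - 2) * (1 / Real.exp 1) := by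
      ring
    rw [e]; exact h6
  calc ((q : ℝ) - 1) ^ 2 / (0.4 : ℝ) ^ (q - 3) * Real.exp (-((1 - 0.4) * (5.1 * (q : ℝ) - 2) / Real.exp 1))
      = ((q : ℝ) - 1) ^ 2 * (1 / (0.4 : ℝ) ^ (q - 3)) * Real.exp (-((1 - 0.4) * (5.1 * (q : ℝ) - 2) / Real.exp 1)) := by ring
    _ ≤ Real.exp (2 * (2.2576 + (((q : ℝ) - 1) / 9.56 - 1))) * Real.exp (0.9163 * ((q : ℝ) - 3)) *
        Real.exp (-(0.6 * (5.1 * (q : ℝ) - 2) * 0.36787944)) := by
        apply mul_le_mul _ h4 (Real.exp_pos _).le (by positivity)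
        apply mul_le_mul h2 h3 (by positivity) (Real.exp_pos _).le
    _ = Real.exp (2 * (2.2576 + (((q : ℝ) - 1) / 9.56 - 1)) + 0.9163 * ((q : ℝ) - 3) +
        -(0.6 * (5.1 * (q : ℝ) - 2) * 0.36787944)) := by rw [← Real.exp_add, ← Real.exp_add]
    _ ≤ Real.exp 0 := by
        apply Real.exp_le_exp.2
        have : ((q : ℝ) - 1) / 9.56 ≤ 0.10460252 * ((q : ℝ) - 1) := by
          rw [div_le_iff₀ (by norm_num)]
          nlinarith
        nlinarith
    _ = 1 := Real.exp_zero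

lemma Q_three : Q 3 5.1 0.5 ≤ 1 := by
  unfold Q
  have h4 : Real.exp (-((1 - 0.5) * (5.1 * ((3 : ℕ) : ℝ) - 2) / Real.exp 1)) ≤ Real.exp (-2) := by
    apply Real.exp_le_exp.2
    apply neg_le_neg
    have e : (1 - 0.5) * (5.1 * ((3 : ℕ) : ℝ) - 2) / Real.exp 1 = 6.65 * (1 / Real.exp 1) := by
      push_cast; ring
    rw [e]
    have := inv_e_ge
    nlinarith
  have h5 : Real.exp (-2) ≤ 1 / 4 := by
    rw [Real.exp_neg, inv_eq_one_div]
    apply one_div_le_one_div_of_le (by norm_num)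
    have : Real.exp 2 = Real.exp 1 * Real.exp 1 := by rw [← Real.exp_add]; norm_num
    rw [this]
    nlinarith [Real.exp_one_gt_d9]
  have : ((3 : ℕ) - 1 : ℝ) ^ 2 / (0.5 : ℝ) ^ (3 - 3) = 4 := by norm_num
  rw [this]
  linarith

lemma Q_four : Q 4 4 (1 / 3) ≤ 1 := by
  unfold Q
  have h4 : Real.exp (-((1 - 1 / 3) * (4 * ((4 : ℕ) : ℝ) - 2) / Real.exp 1)) ≤ Real.exp (-3.4) := by
    apply Real.exp_le_exp.2
    apply neg_le_neg
    have e : (1 - 1 / 3) * (4 * ((4 : ℕ) : ℝ) - 2) / Real.exp 1 = (28 / 3) * (1 / Real.exp 1) := by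
      push_cast; ring
    rw [e]
    have := inv_e_ge
    nlinarith
  have h5 : (27 : ℝ) ≤ Real.exp 3.4 := by
    refine le_trans ?_ (Real.sum_le_exp_of_nonneg (by norm_num) 12)
    norm_num [Finset.sum_range_succ, Nat.factorial]
  have h6 : Real.exp (-3.4) ≤ 1 / 27 := by
    rw [Real.exp_neg, inv_eq_one_div]
    exact one_div_le_one_div_of_le (by norm_num) h5
  have : ((4 : ℕ) - 1 : ℝ) ^ 2 / (1 / 3 : ℝ) ^ (4 - 3) = 27 := by norm_num
  rw [this]
  linarith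

/-- asymptotic statement -/
lemma Q_asymp (c : ℝ) (hc : Real.exp 1 < c) :
    ∃ q₀ : ℕ, ∀ q ≥ q₀, ∃ y : ℝ, 1 / ((q : ℝ) - 1) ≤ y ∧ y ≤ 1 ∧ Q q c y ≤ 1 := by
  have hepos := Real.exp_pos 1
  have hcpos : 0 < c := hepos.trans hc
  set r : ℝ := Real.exp 1 / c with hr
  have hr0 : 0 < r := by positivity
  have hr1 : r < 1 := by rw [hr, div_lt_one hcpos]; exact hc
  set y : ℝ := (1 + r) / 2 with hy
  have hy0 : 0 < y := by positivity
  have hyr : r < y := by rw [hy]; linarith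
  have hy1 : y < 1 := by rw [hy]; linarith
  set κ : ℝ := (1 - y) * (1 / r - 1 / y) with hκ
  have hκ0 : 0 < κ := by
    apply mul_pos (by linarith)
    have := one_div_lt_one_div_of_lt hr0 hyr
    linarith
  -- (q-1)^2 exp (-κ q + 2) -> 0
  have ht := Real.tendsto_pow_mul_exp_neg_atTop_nhds_zero 2
  have ht2 : Filter.Tendsto (fun q : ℕ => κ * (q : ℝ)) Filter.atTop Filter.atTop :=
    Filter.Tendsto.const_mul_atTop hκ0 tendsto_natCast_atTop_atTop
  have ht3 := ht.comp ht2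
  have hε : (0 : ℝ) < κ ^ 2 * Real.exp (-2) := by positivity
  have hev := (ht3.eventually (gt_mem_nhds hε)).and
    (Filter.eventually_ge_atTop (max 3 (⌈1 / y⌉₊ + 1)))
  rw [Filter.eventually_atTop] at hev
  obtain ⟨q₀, hq₀⟩ := hev
  refine ⟨q₀, fun q hq => ⟨y, ?_, hy1.le, ?_⟩⟩
  · have h1 := (hq₀ q hq).2
    have h2 : ⌈1 / y⌉₊ + 1 ≤ q := le_trans (le_max_right _ _) h1
    have h3 : (1 / y) ≤ (q : ℝ) - 1 := by
      have h4 : 1 / y ≤ (⌈1 / y⌉₊ : ℝ) := Nat.le_ceil _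
      have h5 : ((⌈1 / y⌉₊ : ℕ) : ℝ) + 1 ≤ q := by exact_mod_cast h2
      linarith
    rw [div_le_iff₀ (by linarith [show 0 < 1 / y by positivity])]
    rw [div_le_iff₀ hy0] at h3
    linarith
  · have h1 := (hq₀ q hq).1
    have h3 : 3 ≤ q := le_trans (le_max_left _ _) (hq₀ q hq).2
    have hq3 : (3 : ℝ) ≤ q := by exact_mod_cast h3
    simp only [Function.comp_def] at h1
    have h4 : (q : ℝ) ^ 2 * Real.exp (-(κ * q)) < Real.exp (-2) := by
      have : (κ * (q : ℝ)) ^ 2 * Real.exp (-(κ * q)) = κ ^ 2 * ((q : ℝ) ^ 2 * Real.exp (-(κ * q))) := by ring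
      rw [this] at h1
      exact lt_of_mul_lt_mul_left h1 (by positivity)
    unfold Q
    have h5 : 1 / y ^ (q - 3) ≤ Real.exp (((1 - y) / y) * q) := by
      have h6 : 1 / y ≤ Real.exp ((1 - y) / y) := by
        have := Real.add_one_le_exp ((1 - y) / y)
        have e : (1 - y) / y + 1 = 1 / y := by field_simp; ring
        linarith
      calc 1 / y ^ (q - 3) = (1 / y) ^ (q - 3) := by rw [one_div, one_div, inv_pow]
        _ ≤ (1 / y) ^ q := pow_le_pow_right₀ (by rw [le_div_iff₀ hy0]; linarith) (by omega)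
        _ ≤ (Real.exp ((1 - y) / y)) ^ q := pow_le_pow_left₀ (by positivity) h6 _
        _ = _ := by rw [← Real.exp_nat_mul]; ring_nf
    calc ((q : ℝ) - 1) ^ 2 / y ^ (q - 3) * Real.exp (-((1 - y) * (c * q - 2) / Real.exp 1))
        = ((q : ℝ) - 1) ^ 2 * (1 / y ^ (q - 3)) * Real.exp (-((1 - y) * (c * q - 2) / Real.exp 1)) := by ring
      _ ≤ (q : ℝ) ^ 2 * Real.exp (((1 - y) / y) * q) * Real.exp (-((1 - y) * (c * q - 2) / Real.exp 1)) := by
          apply mul_le_mul_of_nonneg_right _ (Real.exp_pos _).le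
          apply mul_le_mul _ h5 (by positivity) (by positivity)
          apply pow_le_pow_left₀ (by linarith) (by linarith)
      _ = (q : ℝ) ^ 2 * Real.exp (-(κ * q)) * Real.exp (2 * (1 - y) / Real.exp 1) := by
          rw [mul_assoc, mul_assoc, ← Real.exp_add, ← Real.exp_add]
          congr 2
          rw [hκ, hr]
          field_simp
          ring
      _ ≤ Real.exp (-2) * Real.exp 2 := by
          apply mul_le_mul h4.le _ (Real.exp_pos _).le (Real.exp_pos _).le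
          apply Real.exp_le_exp.2
          rw [div_le_iff₀ hepos]
          nlinarith [Real.exp_one_gt_d9]
      _ = 1 := by rw [← Real.exp_add]; norm_num

end Pool.H34.Dec
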