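import Pool.Agent.H34.Dec.Copies
import Pool.Agent.H34.Dec.Num

/-! Combining everything. -/

open Finset Filter Topology
open scoped Classical

namespace Pool.H34.Dec

/-- admissible constants -/
def Adm (q : ℕ) (c : ℝ) : Prop := ∃ y : ℝ, 1 / ((q : ℝ) - 1) ≤ y ∧ y ≤ 1 ∧ Q q c y ≤ 1

lemma adm_mono {q : ℕ} (hq : 3 ≤ q) {c c' : ℝ} (h : c ≤ c') (ha : Adm q c) : Adm q c' := by
  obtain ⟨y, h0, h1, h2⟩ := ha
  have hq' : (3 : ℝ) ≤ q := by exact_mod_cast hq
  have hy : 0 < y := lt_of_lt_of_le (by
    have : (0 : ℝ) < (q : ℝ) - 1 := by linarith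
    positivity) h0
  refine ⟨y, h0, h1, le_trans ?_ h2⟩
  unfold Q
  apply mul_le_mul_of_nonneg_left _ (by positivity)
  apply Real.exp_le_exp.2
  apply neg_le_neg
  apply div_le_div_of_nonneg_right _ (Real.exp_pos 1).le
  apply mul_le_mul_of_nonneg_left _ (by linarith)
  nlinarith

lemma adm_all {q : ℕ} (hq : 3 ≤ q) : Adm q 5.1 := by
  rcases Nat.lt_or_ge q 4 with h | h
  · have : q = 3 := by omega
    subst this
    exact ⟨0.5, by norm_num, by norm_num, Q_three⟩
  · refine ⟨0.4, ?_, by norm_num, Q_le_one h⟩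
    have hq' : (4 : ℝ) ≤ q := by exact_mod_cast h
    rw [div_le_iff₀ (by linarith)]
    linarith

lemma adm_four : Adm 4 4 := ⟨1 / 3, by norm_num, by norm_num, Q_four⟩

theorem fracDecomp_of_adm {W V : Type} [Fintype W] [Fintype V] (F : SimpleGraph W) (hF : F ≠ ⊥)
    (hW : 3 ≤ Fintype.card W) (c : ℝ) (hc : 0 < c) (ha : Adm (Fintype.card W) c) (G : SimpleGraph V)
    (hG : ∀ v, (1 - 1 / (c * Fintype.card W)) * Fintype.card V ≤ G.degree v) :
    ∃ w, IsFracDecomp F G w := by
  set q := Fintype.card W with hq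
  have hq' : (3 : ℝ) ≤ q := by exact_mod_cast hW
  obtain ⟨y, hy0, hy1, hQ⟩ := ha
  rcases isEmpty_or_nonempty V with hV | hV
  · refine ⟨fun _ => 0, fun _ => ⟨le_rfl, zero_le_one⟩, fun H h => absurd rfl h, ?_⟩
    intro e
    induction e using Sym2.ind with
    | _ a b => exact fun _ => hV.elim a
  · set D : ℕ := univ.sup (fun v : V => (univ.filter (fun u => ¬ G.Adj v u)).card) with hD
    have hDle : ∀ v, (univ.filter (fun u => ¬ G.Adj v u)).card ≤ D := fun v =>
      Finset.le_sup (f := fun v : V => (univ.filter (fun u => ¬ G.Adj v u)).card) (Finset.mem_univ v)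
    have hD1 : 1 ≤ D := by
      obtain ⟨v⟩ := hV
      refine le_trans ?_ (hDle v)
      rw [Nat.succ_le_iff, Finset.card_pos]
      exact ⟨v, by simp⟩
    obtain ⟨v₀, _, hv₀⟩ := Finset.exists_mem_eq_sup (univ : Finset V) Finset.univ_nonempty
      (fun v : V => (univ.filter (fun u => ¬ G.Adj v u)).card)
    have hdeg : ((univ.filter (fun u => ¬ G.Adj v₀ u)).card : ℝ) = Fintype.card V - G.degree v₀ := by
      have h1 : (univ.filter (fun u => ¬ G.Adj v₀ u)).card + G.degree v₀ = Fintype.card V := by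
        rw [← SimpleGraph.card_neighborFinset_eq_degree, SimpleGraph.neighborFinset_eq_filter,
          add_comm, Finset.card_filter_add_card_filter_not, Finset.card_univ]
      have : ((univ.filter (fun u => ¬ G.Adj v₀ u)).card : ℝ) + G.degree v₀ = Fintype.card V := by
        exact_mod_cast h1
      linarith
    have hDn : (D : ℝ) ≤ Fintype.card V / (c * q) := by
      have h2 := hG v₀
      rw [hD, hv₀, hdeg]
      have : (1 - 1 / (c * (q : ℝ))) * (Fintype.card V : ℝ) = Fintype.card V - Fintype.card V / (c * q) := by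
        ring
      linarith
    have hDpos : (0 : ℝ) < D := by exact_mod_cast hD1
    have hcq : 0 < c * (q : ℝ) := by positivity
    have hnD : c * q ≤ (Fintype.card V : ℝ) / D := by
      rw [le_div_iff₀ hDpos]
      rw [le_div_iff₀ hcq] at hDn
      linarith
    have hypos : 0 < y := lt_of_lt_of_le (by
      have : (0 : ℝ) < (q : ℝ) - 1 := by linarith
      positivity) hy0
    obtain ⟨w, hw0, hwc, hcov⟩ := exists_weights (q := q) hW G D hD1 hDle y hy0 hy1 (by
      refine le_trans ?_ hQ
      unfold Q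
      apply mul_le_mul_of_nonneg_left _ (by positivity)
      apply Real.exp_le_exp.2
      apply neg_le_neg
      apply div_le_div_of_nonneg_right _ (Real.exp_pos 1).le
      apply mul_le_mul_of_nonneg_left _ (by linarith)
      linarith)
    exact fracDecomp_of_weights F hF G q hq.symm w hw0 hwc hcov

/-- choice of the constants -/
theorem exists_const : ∃ C : ℕ → ℝ, (∀ q ≥ 3, 0 < C q ∧ C q ≤ 5.1 ∧ Adm q (C q)) ∧ C 4 ≤ 4 ∧
    Tendsto C atTop (𝓝 (Real.exp 1)) := by
  have hepos := Real.exp_pos 1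
  have hex : ∀ k : ℕ, ∃ N : ℕ, ∀ q ≥ N, Adm q (Real.exp 1 + 1 / ((k : ℝ) + 1)) := by
    intro k
    have : Real.exp 1 < Real.exp 1 + 1 / ((k : ℝ) + 1) := by
      have : (0 : ℝ) < 1 / ((k : ℝ) + 1) := by positivity
      linarith
    exact Q_asymp _ this
  choose N hN using hex
  set kk : ℕ → ℕ := fun q => Nat.findGreatest (fun k => Adm q (Real.exp 1 + 1 / ((k : ℝ) + 1))) q with hkk
  set C' : ℕ → ℝ := fun q => Real.exp 1 + 1 / ((kk q : ℝ) + 1) with hC'
  set base : ℕ → ℝ := fun q => if q = 4 then 4 else 5.1 with hbase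
  have hbadm : ∀ q ≥ 3, Adm q (base q) := by
    intro q hq
    simp only [hbase]
    split_ifs with h
    · subst h; exact adm_four
    · exact adm_all hq
  set C : ℕ → ℝ := fun q => if Adm q (C' q) then min (base q) (C' q) else base q with hC
  have hC'pos : ∀ q, Real.exp 1 < C' q := by
    intro q
    have : (0 : ℝ) < 1 / ((kk q : ℝ) + 1) := by positivity
    simp only [hC']; linarith
  have hbpos : ∀ q, 0 < base q := by
    intro q; simp only [hbase]; split_ifs <;> norm_num
  have hble : ∀ q, base q ≤ 5.1 := by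
    intro q; simp only [hbase]; split_ifs <;> norm_num
  have hbe : ∀ q, Real.exp 1 < base q := by
    intro q; simp only [hbase]; split_ifs <;> linarith [Real.exp_one_lt_d9]
  refine ⟨C, ?_, ?_, ?_⟩
  · intro q hq
    simp only [hC]
    split_ifs with h
    · refine ⟨lt_min (hbpos q) (hepos.trans (hC'pos q)), le_trans (min_le_left _ _) (hble q), ?_⟩
      rcases min_choice (base q) (C' q) with h1 | h1
      · rw [h1]; exact hbadm q hq
      · rw [h1]; exact h
    · exact ⟨hbpos q, hble q, hbadm q hq⟩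
  · simp only [hC]
    have : base 4 ≤ 4 := by simp [hbase]
    split_ifs with h
    · exact le_trans (min_le_left _ _) this
    · exact this
  · rw [Metric.tendsto_atTop]
    intro ε hε
    obtain ⟨k, hk⟩ := exists_nat_one_div_lt hε
    refine ⟨max (max (N k) k) 3, fun q hq => ?_⟩
    have hq1 : N k ≤ q := le_trans (le_trans (le_max_left _ _) (le_max_left _ _)) hq
    have hq2 : k ≤ q := le_trans (le_trans (le_max_right _ _) (le_max_left _ _)) hq
    have hq3 : 3 ≤ q := le_trans (le_max_right _ _) hq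
    have h1 : Adm q (Real.exp 1 + 1 / ((k : ℝ) + 1)) := hN k q hq1
    have h2 : k ≤ kk q := Nat.le_findGreatest hq2 h1
    have h3 : Adm q (C' q) := by
      have := Nat.findGreatest_spec (P := fun k => Adm q (Real.exp 1 + 1 / ((k : ℝ) + 1))) hq2 h1
      exact this
    have h4 : C' q ≤ Real.exp 1 + 1 / ((k : ℝ) + 1) := by
      simp only [hC']
      have : 1 / ((kk q : ℝ) + 1) ≤ 1 / ((k : ℝ) + 1) := by
        apply one_div_le_one_div_of_le (by positivity)
        have : (k : ℝ) ≤ kk q := by exact_mod_cast h2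
        linarith
      linarith
    have h5 : C q = min (base q) (C' q) := by simp only [hC, h3, if_true]
    have h6 : Real.exp 1 < C q := by rw [h5]; exact lt_min (hbe q) (hC'pos q)
    have h7 : C q ≤ C' q := by rw [h5]; exact min_le_right _ _
    rw [Real.dist_eq, abs_of_pos (by linarith)]
    linarith

end Pool.H34.Dec
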