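import Mathlib

/-!
The Shearer (extremal Lovasz local lemma) measure of the complement of a graph `G`: a signed measure
on cliques of `G` in which every edge of `G` is covered with the same probability.
-/

open Finset
open scoped Classical

namespace Pool.H34.Dec

variable {V : Type*} [Fintype V] (G : SimpleGraph V)

/-- cliques of `G` contained in `A` -/
noncomputable def cl (A : Finset V) : Finset (Finset V) :=
  A.powerset.filter (fun T => G.IsClique (T : Set V))

lemma mem_cl {A T : Finset V} : T ∈ cl G A ↔ T ⊆ A ∧ G.IsClique (T : Set V) := by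
  simp [cl]

/-- alternating clique sum -/
noncomputable def Z (μ : ℝ) (A : Finset V) : ℝ := ∑ T ∈ cl G A, (-μ) ^ T.card

/-- common neighbourhood -/
noncomputable def nb (S : Finset V) : Finset V := univ.filter (fun v => ∀ u ∈ S, G.Adj u v)

lemma mem_nb {S : Finset V} {v : V} : v ∈ nb G S ↔ ∀ u ∈ S, G.Adj u v := by simp [nb]

lemma Z_eq (μ : ℝ) (A : Finset V) :
    Z G μ A = ∑ T ∈ A.powerset, if G.IsClique (T : Set V) then (-μ) ^ T.card else 0 := by
  rw [Z, cl, Finset.sum_filter]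

lemma Z_empty (μ : ℝ) : Z G μ ∅ = 1 := by
  rw [Z_eq]; simp

lemma Z_insert (μ : ℝ) {v : V} {A : Finset V} (hv : v ∉ A) :
    Z G μ (insert v A) = Z G μ A - μ * Z G μ (A.filter (G.Adj v)) := by
  rw [Z_eq, Finset.sum_powerset_insert hv, ← Z_eq, sub_eq_add_neg]
  congr 1
  have h1 : Z G μ (A.filter (G.Adj v)) =
      ∑ T ∈ A.powerset, if G.IsClique (T : Set V) ∧ (∀ b ∈ T, G.Adj v b) then (-μ) ^ T.card else 0 := by
    rw [Z, ← Finset.sum_filter]
    apply Finset.sum_congr _ (fun _ _ => rfl)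
    ext T
    simp only [mem_cl, Finset.mem_filter, Finset.mem_powerset, Finset.subset_iff]
    constructor
    · rintro ⟨h, h'⟩
      exact ⟨fun x hx => (h hx).1, h', fun x hx => (h hx).2⟩
    · rintro ⟨h, h', h''⟩
      exact ⟨fun x hx => ⟨h hx, h'' x hx⟩, h'⟩
  rw [h1, Finset.mul_sum, ← Finset.sum_neg_distrib]
  apply Finset.sum_congr rfl
  intro T hT
  have hvT : v ∉ T := fun h => hv (Finset.mem_powerset.1 hT h)
  have hvT' : v ∉ (T : Set V) := by simpa using hvT
  have hcl : G.IsClique ((insert v T : Finset V) : Set V) ↔ (G.IsClique (T : Set V) ∧ ∀ b ∈ T, G.Adj v b) := by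
    rw [Finset.coe_insert, SimpleGraph.isClique_insert_of_notMem hvT']
    simp
  by_cases h : G.IsClique (T : Set V) ∧ ∀ b ∈ T, G.Adj v b
  · rw [if_pos (hcl.2 h), if_pos h, Finset.card_insert_of_notMem hvT, pow_succ]
    ring
  · rw [if_neg (fun h' => h (hcl.1 h')), if_neg h]
    ring

/-- Local lemma condition: `ν ≤ x (1-x)^d` where every vertex has at most `d` non-neighbours other
than itself. -/
structure LLL (d : ℕ) (x ν : ℝ) : Prop where
  hd : ∀ v : V, (univ.filter (fun u => u ≠ v ∧ ¬ G.Adj v u)).card ≤ d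
  x0 : 0 ≤ x
  x1 : x ≤ 1
  n0 : 0 ≤ ν
  hν : ν ≤ x * (1 - x) ^ d

variable {G}

lemma chain {d : ℕ} {x ν : ℝ} (h : LLL G d x ν) (m : ℕ)
    (hQ : ∀ A : Finset V, A.card ≤ m → ∀ v ∈ A, (1 - x) * Z G ν (A.erase v) ≤ Z G ν A) :
    ∀ (k : ℕ) (B C : Finset V), C ⊆ B → B.card ≤ m → (B \ C).card = k →
      (1 - x) ^ k * Z G ν C ≤ Z G ν B := by
  intro k
  induction k with
  | zero =>
    intro B C hCB _ hk
    have : B ⊆ C := by
      rw [Finset.card_eq_zero, Finset.sdiff_eq_empty_iff_subset] at hk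
      exact hk
    rw [Finset.Subset.antisymm this hCB]
    simp
  | succ k ih =>
    intro B C hCB hB hk
    have hne : (B \ C).Nonempty := by
      rw [← Finset.card_pos]; omega
    obtain ⟨v, hv⟩ := hne
    have hvB : v ∈ B := (Finset.mem_sdiff.1 hv).1
    have hvC : v ∉ C := (Finset.mem_sdiff.1 hv).2
    have h1 : C ⊆ B.erase v := fun y hy => Finset.mem_erase.2 ⟨fun e => hvC (e ▸ hy), hCB hy⟩
    have h2 : ((B.erase v) \ C).card = k := by
      have : (B.erase v) \ C = (B \ C).erase v := by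
        ext y; simp only [Finset.mem_sdiff, Finset.mem_erase]; tauto
      rw [this, Finset.card_erase_of_mem hv, hk]; rfl
    have h3 := ih (B.erase v) C h1 (le_trans (Finset.card_le_card (Finset.erase_subset _ _)) hB) h2
    have h4 := hQ B hB v hvB
    have h5 : 0 ≤ 1 - x := by linarith [h.x1]
    calc (1 - x) ^ (k + 1) * Z G ν C = (1 - x) * ((1 - x) ^ k * Z G ν C) := by ring
      _ ≤ (1 - x) * Z G ν (B.erase v) := mul_le_mul_of_nonneg_left h3 h5
      _ ≤ _ := h4

lemma main_ind {d : ℕ} {x ν : ℝ} (h : LLL G d x ν) (m : ℕ) :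
    ∀ A : Finset V, A.card ≤ m → 0 ≤ Z G ν A ∧ ∀ v ∈ A, (1 - x) * Z G ν (A.erase v) ≤ Z G ν A := by
  induction m with
  | zero =>
    intro A hA
    have : A = ∅ := by rw [← Finset.card_eq_zero]; omega
    subst this
    refine ⟨by rw [Z_empty]; norm_num, by simp⟩
  | succ m ih =>
    have key : ∀ A : Finset V, A.card ≤ m + 1 → ∀ v ∈ A, (1 - x) * Z G ν (A.erase v) ≤ Z G ν A := by
      intro A hA v hv
      have hB : (A.erase v).card ≤ m := by rw [Finset.card_erase_of_mem hv]; omega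
      have h1 := Z_insert G ν (v := v) (A := A.erase v) (Finset.notMem_erase v A)
      rw [Finset.insert_erase hv] at h1
      have hsub : (A.erase v).filter (G.Adj v) ⊆ A.erase v := Finset.filter_subset _ _
      have hd : ((A.erase v) \ ((A.erase v).filter (G.Adj v))).card ≤ d := by
        refine le_trans (Finset.card_le_card ?_) (h.hd v)
        intro y hy
        simp only [Finset.mem_sdiff, Finset.mem_erase, Finset.mem_filter, Finset.mem_univ, true_and] at hy ⊢
        tauto
      have hch := chain h m (fun A' hA' => (ih A' hA').2) _ (A.erase v) _ hsub hB rfl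
      have hC0 : 0 ≤ Z G ν ((A.erase v).filter (G.Adj v)) :=
        (ih _ (le_trans (Finset.card_le_card hsub) hB)).1
      have h5 : 0 ≤ 1 - x := by linarith [h.x1]
      have h6 : (1 - x) ^ d ≤ (1 - x) ^ ((A.erase v) \ ((A.erase v).filter (G.Adj v))).card :=
        pow_le_pow_of_le_one h5 (by linarith [h.x0]) hd
      have h7 : (1 - x) ^ d * Z G ν ((A.erase v).filter (G.Adj v)) ≤ Z G ν (A.erase v) :=
        le_trans (mul_le_mul_of_nonneg_right h6 hC0) hch
      have h8 : ν * Z G ν ((A.erase v).filter (G.Adj v)) ≤ x * Z G ν (A.erase v) :=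
        calc ν * Z G ν ((A.erase v).filter (G.Adj v))
            ≤ (x * (1 - x) ^ d) * Z G ν ((A.erase v).filter (G.Adj v)) :=
              mul_le_mul_of_nonneg_right h.hν hC0
          _ = x * ((1 - x) ^ d * Z G ν ((A.erase v).filter (G.Adj v))) := by ring
          _ ≤ _ := mul_le_mul_of_nonneg_left h7 h.x0
      rw [h1]; linarith
    intro A hA
    refine ⟨?_, key A hA⟩
    rcases A.eq_empty_or_nonempty with rfl | ⟨v, hv⟩
    · rw [Z_empty]; norm_num
    · have h1 := key A hA v hv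
      have h2 := (ih (A.erase v) (by rw [Finset.card_erase_of_mem hv]; omega)).1
      have h5 : 0 ≤ 1 - x := by linarith [h.x1]
      exact le_trans (mul_nonneg h5 h2) h1

lemma Z_nonneg {d : ℕ} {x ν : ℝ} (h : LLL G d x ν) (A : Finset V) : 0 ≤ Z G ν A :=
  (main_ind h A.card A le_rfl).1

lemma Z_insert_le {d : ℕ} {x ν : ℝ} (h : LLL G d x ν) {v : V} {A : Finset V} (hv : v ∉ A) :
    Z G ν (insert v A) ≤ Z G ν A := by
  rw [Z_insert G ν hv]
  have := mul_nonneg h.n0 (Z_nonneg h (A.filter (G.Adj v)))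
  linarith

lemma Z_anti {d : ℕ} {x ν : ℝ} (h : LLL G d x ν) {C : Finset V} :
    ∀ D : Finset V, Z G ν (C ∪ D) ≤ Z G ν C := by
  intro D
  induction D using Finset.induction with
  | empty => simp
  | insert a s ha ih =>
    by_cases hm : a ∈ C ∪ s
    · have : C ∪ insert a s = C ∪ s := by
        rw [Finset.union_insert, Finset.insert_eq_of_mem hm]
      rw [this]; exact ih
    · rw [Finset.union_insert]
      exact le_trans (Z_insert_le h hm) ih

lemma Z_anti' {d : ℕ} {x ν : ℝ} (h : LLL G d x ν) {C B : Finset V} (hCB : C ⊆ B) :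
    Z G ν B ≤ Z G ν C := by
  have := Z_anti h (C := C) B
  rwa [Finset.union_eq_right.2 hCB] at this

lemma nu_le_one {d : ℕ} {x ν : ℝ} (h : LLL G d x ν) : ν ≤ 1 := by
  have h5 : 0 ≤ 1 - x := by linarith [h.x1]
  have h6 : (1 - x) ^ d ≤ 1 := pow_le_one₀ h5 (by linarith [h.x0])
  have := h.hν
  have h7 : x * (1 - x) ^ d ≤ 1 * 1 := mul_le_mul h.x1 h6 (pow_nonneg h5 _) (by norm_num)
  linarith

lemma Z_le_pow {d : ℕ} {x ν : ℝ} (h : LLL G d x ν) (A : Finset V) :
    Z G ν A ≤ (1 - ν) ^ A.card := by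
  have hν1 := nu_le_one h
  induction A using Finset.induction with
  | empty => rw [Z_empty]; simp
  | insert a s ha ih =>
    rw [Z_insert G ν ha, Finset.card_insert_of_notMem ha, pow_succ]
    have h1 : Z G ν s ≤ Z G ν (s.filter (G.Adj a)) := Z_anti' h (Finset.filter_subset _ _)
    have h2 : ν * Z G ν s ≤ ν * Z G ν (s.filter (G.Adj a)) := mul_le_mul_of_nonneg_left h1 h.n0
    have h3 : Z G ν s * (1 - ν) ≤ (1 - ν) ^ s.card * (1 - ν) :=
      mul_le_mul_of_nonneg_right ih (by linarith)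
    linarith

lemma Z_le_exp {d : ℕ} {x ν : ℝ} (h : LLL G d x ν) (A : Finset V) :
    Z G ν A ≤ Real.exp (-(ν * A.card)) := by
  refine le_trans (Z_le_pow h A) ?_
  have h1 : 1 - ν ≤ Real.exp (-ν) := by
    have := Real.add_one_le_exp (-ν); linarith
  calc (1 - ν) ^ A.card ≤ (Real.exp (-ν)) ^ A.card :=
        pow_le_pow_left₀ (by linarith [nu_le_one h]) h1 _
    _ = _ := by rw [← Real.exp_nat_mul]; ring_nf

variable (G)

/-- generating function identity -/
lemma Z_ident (x μ : ℝ) (A : Finset V) :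
    ∑ S ∈ cl G A, (x * μ) ^ S.card * Z G μ (A ∩ nb G S) = Z G ((1 - x) * μ) A := by
  have h1 : Z G ((1 - x) * μ) A = ∑ R ∈ cl G A, ∑ S ∈ R.powerset, (x * μ) ^ S.card * (-μ) ^ (R.card - S.card) := by
    rw [Z]
    apply Finset.sum_congr rfl
    intro R _
    rw [Finset.sum_pow_mul_eq_add_pow]
    congr 1; ring
  rw [h1]
  simp only [Z, Finset.mul_sum]
  rw [Finset.sum_sigma', Finset.sum_sigma']
  refine Finset.sum_bij' (fun p _ => ⟨p.1 ∪ p.2, p.1⟩) (fun p _ => ⟨p.2, p.1 \ p.2⟩) ?_ ?_ ?_ ?_ ?_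
  · rintro ⟨S, T⟩ h
    simp only [Finset.mem_sigma, mem_cl, Finset.mem_powerset] at h ⊢
    obtain ⟨⟨hSA, hS⟩, hTA, hT⟩ := h
    refine ⟨⟨Finset.union_subset hSA (fun t ht => (Finset.mem_inter.1 (hTA ht)).1), ?_⟩,
      Finset.subset_union_left⟩
    intro a ha b hb hab
    rw [Finset.coe_union] at ha hb
    rcases ha with ha | ha <;> rcases hb with hb | hb
    · exact hS ha hb hab
    · exact (mem_nb G).1 (Finset.mem_inter.1 (hTA hb)).2 a ha
    · exact ((mem_nb G).1 (Finset.mem_inter.1 (hTA ha)).2 b hb).symm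
    · exact hT ha hb hab
  · rintro ⟨R, S⟩ h
    simp only [Finset.mem_sigma, mem_cl, Finset.mem_powerset] at h ⊢
    obtain ⟨⟨hRA, hR⟩, hSR⟩ := h
    refine ⟨⟨hSR.trans hRA, hR.subset (by exact_mod_cast hSR)⟩, ?_, hR.subset ?_⟩
    · intro t ht
      rw [Finset.mem_sdiff] at ht
      refine Finset.mem_inter.2 ⟨hRA ht.1, (mem_nb G).2 ?_⟩
      intro u hu
      exact hR (by exact_mod_cast hSR hu) (by exact_mod_cast ht.1) (fun e => ht.2 (e ▸ hu))
    · exact_mod_cast Finset.sdiff_subset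
  · rintro ⟨S, T⟩ h
    simp only [Finset.mem_sigma, mem_cl] at h
    obtain ⟨⟨hSA, hS⟩, hTA, hT⟩ := h
    have hdis : Disjoint S T := by
      rw [Finset.disjoint_left]
      intro a ha hb
      exact G.loopless.irrefl a ((mem_nb G).1 (Finset.mem_inter.1 (hTA hb)).2 a ha)
    simp only [Sigma.mk.injEq, heq_eq_eq, true_and]
    rw [Finset.union_sdiff_cancel_left hdis]
  · rintro ⟨R, S⟩ h
    simp only [Finset.mem_sigma, mem_cl, Finset.mem_powerset] at h
    obtain ⟨⟨hRA, hR⟩, hSR⟩ := h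
    simp only [Sigma.mk.injEq, heq_eq_eq, and_true]
    exact Finset.union_sdiff_of_subset hSR
  · rintro ⟨S, T⟩ h
    simp only [Finset.mem_sigma, mem_cl] at h
    obtain ⟨⟨hSA, hS⟩, hTA, hT⟩ := h
    have hdis : Disjoint S T := by
      rw [Finset.disjoint_left]
      intro a ha hb
      exact G.loopless.irrefl a ((mem_nb G).1 (Finset.mem_inter.1 (hTA hb)).2 a ha)
    simp only
    rw [Finset.card_union_of_disjoint hdis]
    congr 2
    omega

/-- the (signed) Shearer measure -/
noncomputable def P (μ : ℝ) (S : Finset V) : ℝ :=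
  if G.IsClique (S : Set V) then μ ^ S.card * Z G μ (nb G S) else 0

lemma sum_pair (f : ℕ → ℝ) (μ : ℝ) {a b : V} (hab : G.Adj a b) :
    ∑ S : Finset V, (if a ∈ S ∧ b ∈ S then f S.card * P G μ S else 0) =
      μ ^ 2 * ∑ S ∈ cl G (nb G {a, b}), f (S.card + 2) * (μ ^ S.card * Z G μ (nb G {a, b} ∩ nb G S)) := by
  have hne : a ≠ b := hab.ne
  have h1 : ∑ S : Finset V, (if a ∈ S ∧ b ∈ S then f S.card * P G μ S else 0) =
      ∑ S ∈ univ.filter (fun S : Finset V => (a ∈ S ∧ b ∈ S) ∧ G.IsClique (S : Set V)),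
        f S.card * (μ ^ S.card * Z G μ (nb G S)) := by
    rw [Finset.sum_filter]
    apply Finset.sum_congr rfl
    intro S _
    unfold P
    by_cases hS : a ∈ S ∧ b ∈ S
    · by_cases hc : G.IsClique (S : Set V)
      · simp [hS, hc]
      · simp [hS, hc]
    · simp [hS]
  rw [h1, Finset.mul_sum]
  refine Finset.sum_bij' (fun S _ => S \ {a, b}) (fun S _ => S ∪ {a, b}) ?_ ?_ ?_ ?_ ?_
  · intro S hS
    simp only [Finset.mem_filter, Finset.mem_univ, true_and] at hS
    obtain ⟨⟨ha, hb⟩, hc⟩ := hS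
    rw [mem_cl]
    refine ⟨?_, hc.subset (by exact_mod_cast Finset.sdiff_subset)⟩
    intro v hv
    rw [Finset.mem_sdiff] at hv
    rw [mem_nb]
    intro u hu
    have huS : u ∈ S := by
      simp only [Finset.mem_insert, Finset.mem_singleton] at hu
      rcases hu with rfl | rfl <;> assumption
    exact hc (by exact_mod_cast huS) (by exact_mod_cast hv.1) (fun e => hv.2 (e ▸ hu))
  · intro S hS
    rw [mem_cl] at hS
    obtain ⟨hSA, hc⟩ := hS
    simp only [Finset.mem_filter, Finset.mem_univ, true_and]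
    refine ⟨⟨by simp, by simp⟩, ?_⟩
    intro u hu v hv huv
    rw [Finset.mem_coe, Finset.mem_union] at hu hv
    rcases hu with hu | hu <;> rcases hv with hv | hv
    · exact hc (by exact_mod_cast hu) (by exact_mod_cast hv) huv
    · exact ((mem_nb G).1 (hSA hu) v hv).symm
    · exact (mem_nb G).1 (hSA hv) u hu
    · simp only [Finset.mem_insert, Finset.mem_singleton] at hu hv
      rcases hu with rfl | rfl <;> rcases hv with rfl | rfl
      · exact absurd rfl huv
      · exact hab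
      · exact hab.symm
      · exact absurd rfl huv
  · intro S hS
    simp only [Finset.mem_filter, Finset.mem_univ, true_and] at hS
    obtain ⟨⟨ha, hb⟩, hc⟩ := hS
    apply Finset.sdiff_union_of_subset
    intro x hx
    simp only [Finset.mem_insert, Finset.mem_singleton] at hx
    rcases hx with rfl | rfl <;> assumption
  · intro S hS
    rw [mem_cl] at hS
    obtain ⟨hSA, hc⟩ := hS
    apply Finset.union_sdiff_cancel_right
    rw [Finset.disjoint_left]
    intro x hx hx'
    exact G.loopless.irrefl x ((mem_nb G).1 (hSA hx) x hx')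
  · intro S hS
    simp only [Finset.mem_filter, Finset.mem_univ, true_and] at hS
    obtain ⟨⟨ha, hb⟩, hc⟩ := hS
    have hsub : ({a, b} : Finset V) ⊆ S := by
      intro x hx
      simp only [Finset.mem_insert, Finset.mem_singleton] at hx
      rcases hx with rfl | rfl <;> assumption
    have hcard : (S \ {a, b}).card + 2 = S.card := by
      rw [Finset.card_sdiff_of_subset hsub, Finset.card_pair hne]
      have := Finset.card_le_card hsub
      rw [Finset.card_pair hne] at this
      omega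
    have hnb : nb G {a, b} ∩ nb G (S \ {a, b}) = nb G S := by
      ext v
      simp only [Finset.mem_inter, mem_nb]
      constructor
      · rintro ⟨h1, h2⟩ u hu
        by_cases hu' : u ∈ ({a, b} : Finset V)
        · exact h1 u hu'
        · exact h2 u (Finset.mem_sdiff.2 ⟨hu, hu'⟩)
      · intro h
        exact ⟨fun u hu => h u (hsub hu), fun u hu => h u (Finset.mem_sdiff.1 hu).1⟩
    rw [hcard, hnb]
    have : μ ^ S.card = μ ^ 2 * μ ^ (S \ {a, b}).card := by
      rw [← pow_add]; congr 1; omega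
    rw [this]; ring

lemma P_nonneg {d : ℕ} {x μ : ℝ} (h : LLL G d x μ) (S : Finset V) : 0 ≤ P G μ S := by
  unfold P
  split_ifs
  · exact mul_nonneg (pow_nonneg h.n0 _) (Z_nonneg h _)
  · exact le_rfl

/-- total coverage of an edge -/
lemma cov_total (μ : ℝ) {a b : V} (hab : G.Adj a b) :
    ∑ S : Finset V, (if a ∈ S ∧ b ∈ S then P G μ S else 0) = μ ^ 2 := by
  have h1 := sum_pair G (fun _ => 1) μ hab
  have h2 := Z_ident G 1 μ (nb G {a, b})
  simp only [one_mul] at h1 h2
  rw [h1, h2]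
  have : Z G ((1 - 1) * μ) (nb G {a, b}) = 1 := by
    rw [Z_eq]
    have : ∀ T ∈ (nb G {a, b}).powerset, (if G.IsClique (T : Set V) then (-((1 - 1) * μ)) ^ T.card else 0)
        = if T = ∅ then (1 : ℝ) else 0 := by
      intro T _
      by_cases hT : T = ∅
      · subst hT; simp
      · have hc : T.card ≠ 0 := by rwa [Ne, Finset.card_eq_zero]
        simp [hT]
    rw [Finset.sum_congr rfl this]
    simp
  rw [this]; ring

/-- tail bound -/
lemma tail {d : ℕ} {x μ : ℝ} (h : LLL G d x μ) {a b : V} (hab : G.Adj a b) (φ : ℕ → ℝ) (B y : ℝ)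
    (hy0 : 0 ≤ y) (hy1 : y ≤ 1) (hB : 0 ≤ B) (hφ : ∀ s, φ (s + 2) ≤ B * y ^ s) :
    ∑ S : Finset V, (if a ∈ S ∧ b ∈ S then φ S.card * P G μ S else 0) ≤
      μ ^ 2 * (B * Real.exp (-((1 - y) * μ * (nb G {a, b}).card))) := by
  rw [sum_pair G φ μ hab]
  apply mul_le_mul_of_nonneg_left _ (sq_nonneg μ)
  have hL : LLL G d x ((1 - y) * μ) := by
    refine ⟨h.hd, h.x0, h.x1, mul_nonneg (by linarith) h.n0, le_trans ?_ h.hν⟩
    have := mul_nonneg hy0 h.n0
    nlinarith
  have h2 := Z_ident G y μ (nb G {a, b})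
  calc ∑ S ∈ cl G (nb G {a, b}), φ (S.card + 2) * (μ ^ S.card * Z G μ (nb G {a, b} ∩ nb G S))
      ≤ ∑ S ∈ cl G (nb G {a, b}), B * ((y * μ) ^ S.card * Z G μ (nb G {a, b} ∩ nb G S)) := by
        apply Finset.sum_le_sum
        intro S _
        have h3 : 0 ≤ μ ^ S.card * Z G μ (nb G {a, b} ∩ nb G S) :=
          mul_nonneg (pow_nonneg h.n0 _) (Z_nonneg h _)
        calc φ (S.card + 2) * (μ ^ S.card * Z G μ (nb G {a, b} ∩ nb G S))
            ≤ (B * y ^ S.card) * (μ ^ S.card * Z G μ (nb G {a, b} ∩ nb G S)) :=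
              mul_le_mul_of_nonneg_right (hφ _) h3
          _ = _ := by rw [mul_pow]; ring
    _ = B * Z G ((1 - y) * μ) (nb G {a, b}) := by rw [← Finset.mul_sum, h2]
    _ ≤ B * Real.exp (-((1 - y) * μ * (nb G {a, b}).card)) :=
        mul_le_mul_of_nonneg_left (Z_le_exp hL _) hB

end Pool.H34.Dec
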