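import Pool.Agent.H34.Dec.Cover

/-! Fractional `K_q`-decompositions of graphs of large minimum degree. -/

open Finset
open scoped Classical

namespace Pool.H34.Dec

variable {V : Type*} [Fintype V]

lemma exp_neg_one_le (D : ℕ) (hD : 1 ≤ D) : Real.exp (-1) ≤ (1 - 1 / (D : ℝ)) ^ (D - 1) := by
  obtain ⟨k, rfl⟩ : ∃ k, D = k + 1 := ⟨D - 1, by omega⟩
  rcases Nat.eq_zero_or_pos k with rfl | hk
  · simp
  · have hk' : (0 : ℝ) < k := by exact_mod_cast hk
    have e1 : (1 - 1 / ((k + 1 : ℕ) : ℝ)) = ((1 : ℝ) + 1 / k)⁻¹ := by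
      push_cast
      field_simp
      ring
    rw [e1, Nat.add_sub_cancel, inv_pow, Real.exp_neg]
    apply inv_anti₀ (by positivity)
    have h1 : (1 : ℝ) + 1 / k ≤ Real.exp (1 / k) := by
      have := Real.add_one_le_exp (1 / (k : ℝ)); linarith
    calc ((1 : ℝ) + 1 / k) ^ k ≤ (Real.exp (1 / k)) ^ k := pow_le_pow_left₀ (by positivity) h1 _
      _ = Real.exp 1 := by
        rw [← Real.exp_nat_mul]; congr 1; field_simp

lemma lll_of_card (G : SimpleGraph V) (D : ℕ) (hD1 : 1 ≤ D)
    (hD : ∀ v, (univ.filter (fun u => ¬ G.Adj v u)).card ≤ D) :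
    LLL G (D - 1) (1 / (D : ℝ)) (1 / (Real.exp 1 * D)) := by
  have hD' : (1 : ℝ) ≤ D := by exact_mod_cast hD1
  refine ⟨?_, by positivity, ?_, by positivity, ?_⟩
  · intro v
    have h1 : univ.filter (fun u => u ≠ v ∧ ¬ G.Adj v u) = (univ.filter (fun u => ¬ G.Adj v u)).erase v := by
      ext u; simp only [Finset.mem_filter, Finset.mem_univ, true_and, Finset.mem_erase]
    rw [h1, Finset.card_erase_of_mem (by simp)]
    have := hD v
    omega
  · rw [div_le_one (by positivity)]; exact hD'
  · have h := exp_neg_one_le D hD1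
    have : 1 / (Real.exp 1 * (D : ℝ)) = 1 / (D : ℝ) * Real.exp (-1) := by
      rw [Real.exp_neg]; field_simp
    rw [this]
    exact mul_le_mul_of_nonneg_left h (by positivity)

theorem exists_weights {q : ℕ} (hq : 3 ≤ q) (G : SimpleGraph V) (D : ℕ) (hD1 : 1 ≤ D)
    (hD : ∀ v, (univ.filter (fun u => ¬ G.Adj v u)).card ≤ D) (y : ℝ) (hy0 : 1 / ((q : ℝ) - 1) ≤ y)
    (hy1 : y ≤ 1)
    (hmain : ((q : ℝ) - 1) ^ 2 / y ^ (q - 3) *
      Real.exp (-((1 - y) * ((Fintype.card V : ℝ) / D - 2) / Real.exp 1)) ≤ 1) :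
    ∃ w : Finset V → ℝ, (∀ K, 0 ≤ w K) ∧ (∀ K, w K ≠ 0 → G.IsClique (K : Set V) ∧ K.card = q) ∧
      ∀ a b, G.Adj a b → cov w a b = 1 := by
  have hq' : (3 : ℝ) ≤ q := by exact_mod_cast hq
  have hq1 : (0 : ℝ) < (q : ℝ) - 1 := by linarith
  have hDpos : (0 : ℝ) < D := by exact_mod_cast hD1
  have hypos : 0 < y := lt_of_lt_of_le (by positivity) hy0
  set μ : ℝ := 1 / (Real.exp 1 * D) with hμ
  have hμ0 : 0 < μ := by positivity
  have hL := lll_of_card G D hD1 hD
  rw [← hμ] at hL
  -- masses
  set m : (ℕ → Prop) → V → V → ℝ := fun p a b =>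
    ∑ S : Finset V, (if a ∈ S ∧ b ∈ S then (if p S.card then 1 else 0) * P G μ S else 0) with hm
  have m_nonneg : ∀ p a b, 0 ≤ m p a b := by
    intro p a b
    apply Finset.sum_nonneg
    intro S _
    split_ifs
    · rw [one_mul]; exact P_nonneg G hL S
    · simp
    · exact le_rfl
  set m0 := m (fun s => s < q)
  set m1 := m (fun s => s = q ∨ s = q + 1)
  set m2 := m (fun s => q + 2 ≤ s)
  have m_symm : ∀ p a b, m p a b = m p b a := by
    intro p a b
    apply Finset.sum_congr rfl
    intro S _
    simp only [and_comm]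
  have tot : ∀ a b, G.Adj a b → m0 a b + m1 a b + m2 a b = μ ^ 2 := by
    intro a b hab
    rw [← cov_total G μ hab]
    simp only [m0, m1, m2, hm]
    rw [← Finset.sum_add_distrib, ← Finset.sum_add_distrib]
    apply Finset.sum_congr rfl
    intro S _
    by_cases h : a ∈ S ∧ b ∈ S
    · simp only [h, and_self, if_true]
      rcases lt_or_ge S.card q with h1 | h1
      · have h2 : ¬ (S.card = q ∨ S.card = q + 1) := by omega
        have h3 : ¬ (q + 2 ≤ S.card) := by omega
        simp only [h1, h2, h3, if_true, if_false]; ring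
      · rcases lt_or_ge S.card (q + 2) with h4 | h4
        · have h2 : (S.card = q ∨ S.card = q + 1) := by omega
          have h3 : ¬ (q + 2 ≤ S.card) := by omega
          have h5 : ¬ (S.card < q) := by omega
          simp only [h5, h2, h3, if_true, if_false]; ring
        · have h2 : ¬ (S.card = q ∨ S.card = q + 1) := by omega
          have h5 : ¬ (S.card < q) := by omega
          simp only [h5, h2, h4, if_true, if_false]; ring
    · simp [h]
  have small : ∀ a b, G.Adj a b → (q : ℝ) * (q - 2) * m0 a b ≤ m2 a b := by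
    intro a b hab
    set φ : ℕ → ℝ := fun s => ((q : ℝ) - 1) ^ 2 * (if s < q then 1 else 0) + (if s = q ∨ s = q + 1 then 1 else 0) with hφ
    have h1 := tail G hL hab φ (((q : ℝ) - 1) ^ 2 / y ^ (q - 3)) y hypos.le hy1 (by positivity) ?_
    · have h2 : ∑ S : Finset V, (if a ∈ S ∧ b ∈ S then φ S.card * P G μ S else 0) =
          ((q : ℝ) - 1) ^ 2 * m0 a b + m1 a b := by
        simp only [m0, m1, hm]
        rw [Finset.mul_sum, ← Finset.sum_add_distrib]
        apply Finset.sum_congr rfl
        intro S _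
        by_cases h : a ∈ S ∧ b ∈ S
        · simp only [h, and_self, if_true, hφ]
          ring
        · simp [h]
      rw [h2] at h1
      have h3 : (Fintype.card V : ℝ) - 2 * D ≤ (nb G {a, b}).card := by
        have : (univ : Finset V) ⊆ nb G {a, b} ∪ (univ.filter (fun u => ¬ G.Adj a u) ∪ univ.filter (fun u => ¬ G.Adj b u)) := by
          intro v _
          simp only [Finset.mem_union, mem_nb, Finset.mem_filter, Finset.mem_univ, true_and,
            Finset.mem_insert, Finset.mem_singleton, forall_eq_or_imp, forall_eq]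
          tauto
        have h4 := Finset.card_le_card this
        have h5 := Finset.card_union_le (nb G {a, b}) (univ.filter (fun u => ¬ G.Adj a u) ∪ univ.filter (fun u => ¬ G.Adj b u))
        have h6 := Finset.card_union_le (univ.filter (fun u => ¬ G.Adj a u)) (univ.filter (fun u => ¬ G.Adj b u))
        have h7 := hD a
        have h8 := hD b
        rw [Finset.card_univ] at h4
        have : Fintype.card V ≤ (nb G {a, b}).card + 2 * D := by omega
        have : (Fintype.card V : ℝ) ≤ (nb G {a, b}).card + 2 * D := by exact_mod_cast this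
        linarith
      have h4 : Real.exp (-((1 - y) * μ * (nb G {a, b}).card)) ≤
          Real.exp (-((1 - y) * ((Fintype.card V : ℝ) / D - 2) / Real.exp 1)) := by
        apply Real.exp_le_exp.2
        apply neg_le_neg
        have : (1 - y) * ((Fintype.card V : ℝ) / D - 2) / Real.exp 1 = (1 - y) * μ * ((Fintype.card V : ℝ) - 2 * D) := by
          rw [hμ]; field_simp
        rw [this]
        apply mul_le_mul_of_nonneg_left h3
        exact mul_nonneg (by linarith) hμ0.le
      have h5 : ((q : ℝ) - 1) ^ 2 / y ^ (q - 3) * Real.exp (-((1 - y) * μ * (nb G {a, b}).card)) ≤ 1 :=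
        le_trans (mul_le_mul_of_nonneg_left h4 (by positivity)) hmain
      have h6 : ((q : ℝ) - 1) ^ 2 * m0 a b + m1 a b ≤ μ ^ 2 := by
        refine le_trans h1 ?_
        have := mul_le_mul_of_nonneg_left h5 (sq_nonneg μ)
        linarith
      have h7 := tot a b hab
      nlinarith
    · intro s
      have hy2 : 1 ≤ ((q : ℝ) - 1) * y := by
        rw [div_le_iff₀ hq1] at hy0; linarith
      have hyp : 0 < y ^ (q - 3) := by positivity
      simp only [hφ]
      rcases lt_or_ge (s + 2) q with h1 | h1
      · have h2 : ¬ (s + 2 = q ∨ s + 2 = q + 1) := by omega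
        simp only [h1, h2, if_true, if_false, mul_one, add_zero]
        have h3 : y ^ (q - 3) ≤ y ^ s := pow_le_pow_of_le_one hypos.le hy1 (by omega)
        have h4 : 1 ≤ y ^ s / y ^ (q - 3) := by rwa [le_div_iff₀ hyp, one_mul]
        have : ((q : ℝ) - 1) ^ 2 / y ^ (q - 3) * y ^ s = ((q : ℝ) - 1) ^ 2 * (y ^ s / y ^ (q - 3)) := by ring
        rw [this]
        nlinarith [sq_nonneg ((q : ℝ) - 1)]
      · rcases lt_or_ge (s + 2) (q + 2) with h4 | h4
        · have h2 : (s + 2 = q ∨ s + 2 = q + 1) := by omega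
          have h5 : ¬ (s + 2 < q) := by omega
          simp only [h5, h2, if_true, if_false, mul_zero, zero_add]
          have h6 : ((q : ℝ) - 1) ^ 2 / y ^ (q - 3) * y ^ s = ((q : ℝ) - 1) ^ 2 * y ^ (s - (q - 3)) := by
            have : y ^ s = y ^ (q - 3) * y ^ (s - (q - 3)) := by rw [← pow_add]; congr 1; omega
            rw [this]; field_simp
          rw [h6]
          have h7 : y ^ 2 ≤ y ^ (s - (q - 3)) := pow_le_pow_of_le_one hypos.le hy1 (by omega)
          have h8 : 1 ≤ (((q : ℝ) - 1) * y) ^ 2 := one_le_pow₀ hy2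
          nlinarith [sq_nonneg ((q : ℝ) - 1)]
        · have h2 : ¬ (s + 2 = q ∨ s + 2 = q + 1) := by omega
          have h5 : ¬ (s + 2 < q) := by omega
          simp only [h5, h2, if_false, mul_zero, add_zero]
          positivity
  -- the correction
  set ψ : V → V → ℝ := fun a b => if G.Adj a b then m0 a b / m2 a b else 0 with hψ
  have hψd : ∀ u, ψ u u = 0 := by intro u; simp [hψ]
  have hψs : ∀ u v, ψ u v = ψ v u := by
    intro u v
    simp only [hψ, G.adj_comm u v]
    have e1 : m0 u v = m0 v u := m_symm (fun s => s < q) u v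
    have e2 : m2 u v = m2 v u := m_symm (fun s => q + 2 ≤ s) u v
    rw [e1, e2]
  have hψ0 : ∀ u v, 0 ≤ ψ u v := by
    intro u v
    simp only [hψ]
    split_ifs
    · exact div_nonneg (m_nonneg (fun s => s < q) u v) (m_nonneg (fun s => q + 2 ≤ s) u v)
    · exact le_rfl
  have hqq : (0 : ℝ) < q * (q - 2) := by nlinarith
  have ht : ∀ u v, ψ u v ≤ 1 / ((q : ℝ) * (q - 2)) := by
    intro u v
    simp only [hψ]
    split_ifs with huv
    · have h1 := small u v huv
      have h2 := m_nonneg (fun s => q + 2 ≤ s) u v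
      rcases h2.eq_or_lt with h3 | h3
      · have : m2 u v = 0 := h3.symm
        rw [this, div_zero]; positivity
      · rw [div_le_div_iff₀ h3 hqq]
        linarith
    · positivity
  have hψm : ∀ a b, G.Adj a b → ψ a b * m2 a b = m0 a b := by
    intro a b hab
    simp only [hψ, hab, if_true]
    have h1 := small a b hab
    have h2 : 0 ≤ m2 a b := m_nonneg (fun s => q + 2 ≤ s) a b
    have h3 : 0 ≤ m0 a b := m_nonneg (fun s => s < q) a b
    rcases h2.eq_or_lt with h4 | h4
    · have : m0 a b = 0 := by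
        rw [← h4] at h1
        have := (mul_nonpos_iff_neg_imp_nonneg.1 h1)
        by_contra hne
        have : 0 < m0 a b := lt_of_le_of_ne h3 (Ne.symm hne)
        nlinarith [mul_pos hqq this]
      rw [this, ← h4]; simp
    · field_simp
  set B : Finset V → ℝ := fun Q => ∑ S ∈ univ.filter (fun S : Finset V => q + 2 ≤ S.card), P G μ S * U (q + 2) S Q with hB
  have hB0 : ∀ Q, 0 ≤ B Q := by
    intro Q
    apply Finset.sum_nonneg
    intro S _
    exact mul_nonneg (P_nonneg G hL S) (U_nonneg _ _ _)
  have hBc : ∀ Q, B Q ≠ 0 → G.IsClique (Q : Set V) ∧ Q.card = q + 2 := by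
    intro Q hQ
    obtain ⟨S, hS, hne⟩ := Finset.exists_ne_zero_of_sum_ne_zero hQ
    have h1 : P G μ S ≠ 0 := left_ne_zero_of_mul hne
    have h2 : U (q + 2) S Q ≠ 0 := right_ne_zero_of_mul hne
    have h3 : G.IsClique (S : Set V) := by
      by_contra hc
      exact h1 (by unfold P; rw [if_neg hc])
    have h4 : Q ⊆ S ∧ Q.card = q + 2 := by
      by_contra hc
      exact h2 (by unfold U; rw [if_neg hc])
    exact ⟨h3.subset (by exact_mod_cast h4.1), h4.2⟩
  refine ⟨fun K => (μ ^ 2)⁻¹ * ((∑ S ∈ univ.filter (fun S : Finset V => S.card = q ∨ S.card = q + 1), P G μ S * U q S K) +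
    ∑ Q ∈ univ.filter (fun Q : Finset V => Q.card = q + 2), B Q * wQ q ψ Q K), ?_, ?_, ?_⟩
  · intro K
    apply mul_nonneg (by positivity)
    apply add_nonneg
    · apply Finset.sum_nonneg
      intro S _
      exact mul_nonneg (P_nonneg G hL S) (U_nonneg _ _ _)
    · apply Finset.sum_nonneg
      intro Q hQ
      apply mul_nonneg (hB0 Q)
      apply wQ_nonneg q hq ψ hψd hψ0 _ ht
      · rw [mul_one_div, div_self hqq.ne']
      · exact (Finset.mem_filter.1 hQ).2
  · intro K hK
    have h1 := right_ne_zero_of_mul hK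
    by_cases h2 : (∑ S ∈ univ.filter (fun S : Finset V => S.card = q ∨ S.card = q + 1), P G μ S * U q S K) = 0
    · rw [h2, zero_add] at h1
      obtain ⟨Q, hQ, hne⟩ := Finset.exists_ne_zero_of_sum_ne_zero h1
      have h3 := hBc Q (left_ne_zero_of_mul hne)
      have h4 : K ⊆ Q ∧ K.card = q := by
        by_contra hc
        exact (right_ne_zero_of_mul hne) (wQ_zero q ψ Q K hc)
      exact ⟨h3.1.subset (by exact_mod_cast h4.1), h4.2⟩
    · obtain ⟨S, hS, hne⟩ := Finset.exists_ne_zero_of_sum_ne_zero h2
      have h1 : P G μ S ≠ 0 := left_ne_zero_of_mul hne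
      have h2 : U q S K ≠ 0 := right_ne_zero_of_mul hne
      have h3 : G.IsClique (S : Set V) := by
        by_contra hc
        exact h1 (by unfold P; rw [if_neg hc])
      have h4 : K ⊆ S ∧ K.card = q := by
        by_contra hc
        exact h2 (by unfold U; rw [if_neg hc])
      exact ⟨h3.subset (by exact_mod_cast h4.1), h4.2⟩
  · intro a b hab
    have hne := hab.ne
    have e0 : cov (fun K => (μ ^ 2)⁻¹ * ((∑ S ∈ univ.filter (fun S : Finset V => S.card = q ∨ S.card = q + 1), P G μ S * U q S K) +
        ∑ Q ∈ univ.filter (fun Q : Finset V => Q.card = q + 2), B Q * wQ q ψ Q K)) a b =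
        (μ ^ 2)⁻¹ * ((∑ S ∈ univ.filter (fun S : Finset V => S.card = q ∨ S.card = q + 1), P G μ S * cov (U q S) a b) +
        ∑ Q ∈ univ.filter (fun Q : Finset V => Q.card = q + 2), B Q * cov (wQ q ψ Q) a b) := by
      rw [← cov_sum, ← cov_sum, ← cov_add]
      unfold cov
      rw [Finset.mul_sum]
      apply Finset.sum_congr rfl; intro K _; split_ifs <;> simp
    rw [e0]
    have e1 : (∑ S ∈ univ.filter (fun S : Finset V => S.card = q ∨ S.card = q + 1), P G μ S * cov (U q S) a b) = m1 a b := by
      simp only [m1, hm]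
      rw [Finset.sum_filter]
      apply Finset.sum_congr rfl
      intro S _
      by_cases hS : S.card = q ∨ S.card = q + 1
      · rw [if_pos hS, cov_U q (by omega) S (by omega) hne, if_pos hS]
        split_ifs <;> simp
      · rw [if_neg hS, if_neg hS]; simp
    have e2 : cov B a b = m2 a b := by
      rw [hB, cov_sum]
      simp only [m2, hm]
      rw [Finset.sum_filter]
      apply Finset.sum_congr rfl
      intro S _
      by_cases hS : q + 2 ≤ S.card
      · rw [if_pos hS, cov_U (q + 2) (by omega) S hS hne, if_pos hS]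
        split_ifs <;> simp
      · rw [if_neg hS, if_neg hS]; simp
    have e3 : ∑ Q ∈ univ.filter (fun Q : Finset V => Q.card = q + 2), B Q * cov (wQ q ψ Q) a b =
        (1 + ψ a b) * cov B a b := by
      unfold cov
      rw [Finset.mul_sum, Finset.sum_filter]
      apply Finset.sum_congr rfl
      intro Q _
      by_cases hQ : Q.card = q + 2
      · rw [if_pos hQ]
        have := cov_wQ q (by omega) ψ hψd hψs Q hQ hne
        unfold cov at this
        rw [this]
        split_ifs <;> ring
      · rw [if_neg hQ]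
        have : B Q = 0 := by
          by_contra hc
          exact hQ (hBc Q hc).2
        rw [this]; simp
    rw [e1, e3, e2]
    have h1 := tot a b hab
    have h2 := hψm a b hab
    have : m1 a b + (1 + ψ a b) * m2 a b = μ ^ 2 := by
      rw [add_mul, one_mul, h2]; linarith
    rw [this]
    exact inv_mul_cancel₀ (by positivity)

end Pool.H34.Dec
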